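import Pool.Agent.PT42.Norm

/-!
# PT51/NormS38: the norm argument with an auxiliary factor

If `LL b n w = 1` then `η = W_i² + 4` is a unit of the ring of integers of `ℚ(w)`, so the product of
the `‖σ η‖` is 1.  `η - 1 = W_i² + 3` is a nonzero algebraic integer, so the product of the
`‖σ (η - 1)‖` is at least 1.  But `‖σ (η - 1)‖ ^ 4 < ‖σ η‖ ^ 5` for all `σ`.
-/

set_option autoImplicit false

namespace Pool.Agent.PT51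

open Pool.Agent.DFJ Pool.Agent.TBK Pool.Agent.PT42 IntermediateField

theorem norm_arg2_s38 {n : ℕ} {b : ℕ → ℤ} {w : ℂ} (h : Cl n b w) {i : ℕ} (hi : 1 ≤ i)
    (hin : i ≤ n) (hbi : (b i).natAbs = 2) (hne3 : Wc b w i ^ 2 + 3 ≠ 0)
    (hall : ∀ w' : ℂ, Cl n b w' → ‖Wc b w' i ^ 2 + 3‖ ^ 4 < ‖Wc b w' i ^ 2 + 4‖ ^ 5) :
    LL b n w ≠ 1 := by
  intro hL
  have hint : IsIntegral ℤ w := h.integral
  have hintQ : IsIntegral ℚ w := hint.tower_top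
  have hfd : FiniteDimensional ℚ ℚ⟮w⟯ := adjoin.finiteDimensional hintQ
  set w₀ : ℚ⟮w⟯ := AdjoinSimple.gen ℚ w with hw₀
  have hgen : algebraMap ℚ⟮w⟯ ℂ w₀ = w := AdjoinSimple.algebraMap_gen ℚ w
  have hinj : Function.Injective (algebraMap ℚ⟮w⟯ ℂ) := (algebraMap ℚ⟮w⟯ ℂ).injective
  have hint₀ : IsIntegral ℤ w₀ := by
    have : IsIntegral ℤ (algebraMap ℚ⟮w⟯ ℂ w₀) := by rw [hgen]; exact hint
    exact (isIntegral_algebraMap_iff hinj).1 this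
  have hcl0 : Wc b w₀ (n + 1) = 0 := by
    apply hinj
    rw [map_zero, ← W_map, hgen]
    exact h.close
  have hw0 : w₀ ≠ 0 := by
    intro h0
    apply h.w0
    rw [← hgen, h0, map_zero]
  have hCl : ∀ σ : ℚ⟮w⟯ →ₐ[ℚ] ℂ, Cl n b (σ w₀) := by
    intro σ
    refine ⟨h.pos, h.even, h.ne, ?_, ?_⟩
    · intro h0
      exact hw0 (σ.toRingHom.injective (by simpa using h0))
    · have h1 := W_map σ.toRingHom b w₀ (n + 1)
      rw [hcl0, map_zero] at h1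
      exact h1
  -- the ring of integers
  obtain ⟨w₁, hval⟩ : ∃ w₁ : integralClosure ℤ ℚ⟮w⟯,
      algebraMap (integralClosure ℤ ℚ⟮w⟯) ℚ⟮w⟯ w₁ = w₀ := ⟨⟨w₀, hint₀⟩, rfl⟩
  have hinjO : Function.Injective (algebraMap (integralClosure ℤ ℚ⟮w⟯) ℚ⟮w⟯) :=
    Subtype.val_injective
  have hL1 : LL b n w₁ = 1 := by
    apply hinjO
    apply hinj
    rw [← LL_map, ← LL_map, map_one, map_one, hval, hgen]
    exact hL
  have hfac : LL b n w₁ = (Wc b w₁ i ^ 2 + 4) *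
      ∏ j ∈ (Finset.Icc 1 n).erase i, PP (b j).natAbs (Wc b w₁ j ^ 2 + 2) := by
    unfold Pool.Agent.TBK.LL
    have hPP : PP 2 (Wc b w₁ i ^ 2 + 2) = Wc b w₁ i ^ 2 + 4 := by
      have h1 := PP_even 1 (Wc b w₁ i ^ 2 + 2)
      rw [al_one] at h1
      rw [show (2 : ℕ) * 1 = 2 from rfl] at h1
      rw [h1]
      ring
    rw [← Finset.mul_prod_erase _ _ (Finset.mem_Icc.2 ⟨hi, hin⟩), hbi, hPP]
  rw [hL1] at hfac
  set ρ₁ : integralClosure ℤ ℚ⟮w⟯ :=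
    ∏ j ∈ (Finset.Icc 1 n).erase i, PP (b j).natAbs (Wc b w₁ j ^ 2 + 2) with hρ₁
  set η₁ : integralClosure ℤ ℚ⟮w⟯ := Wc b w₁ i ^ 2 + 4 with hη₁
  have hη : algebraMap (integralClosure ℤ ℚ⟮w⟯) ℚ⟮w⟯ η₁ = Wc b w₀ i ^ 2 + 4 := by
    rw [hη₁, map_add, map_pow, ← W_map, hval, map_ofNat]
  have hnorm : Algebra.norm ℚ (algebraMap (integralClosure ℤ ℚ⟮w⟯) ℚ⟮w⟯ η₁) *
      Algebra.norm ℚ (algebraMap (integralClosure ℤ ℚ⟮w⟯) ℚ⟮w⟯ ρ₁) = 1 := by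
    rw [← map_mul, ← map_mul, ← hfac, map_one, map_one]
  obtain ⟨y, hy⟩ := IsIntegrallyClosed.isIntegral_iff.1
    (Algebra.isIntegral_norm ℚ (x := algebraMap (integralClosure ℤ ℚ⟮w⟯) ℚ⟮w⟯ η₁) η₁.2)
  obtain ⟨y', hy'⟩ := IsIntegrallyClosed.isIntegral_iff.1
    (Algebra.isIntegral_norm ℚ (x := algebraMap (integralClosure ℤ ℚ⟮w⟯) ℚ⟮w⟯ ρ₁) ρ₁.2)
  rw [← hy, ← hy'] at hnorm
  have hyy : y * y' = 1 := by
    have h1 : ((y * y' : ℤ) : ℚ) = ((1 : ℤ) : ℚ) := by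
      push_cast
      simpa using hnorm
    exact_mod_cast h1
  have hyu : IsUnit y := IsUnit.of_mul_eq_one y' hyy
  have hprod := Algebra.norm_eq_prod_embeddings ℚ ℂ
    (algebraMap (integralClosure ℤ ℚ⟮w⟯) ℚ⟮w⟯ η₁)
  rw [← hy] at hprod
  have hnormone : ‖algebraMap ℚ ℂ (algebraMap ℤ ℚ y)‖ = 1 := by
    rcases Int.isUnit_iff.1 hyu with h1 | h1 <;> rw [h1] <;> simp
  -- the auxiliary factor
  set ζ₁ : integralClosure ℤ ℚ⟮w⟯ := Wc b w₁ i ^ 2 + 3 with hζ₁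
  have hζ : algebraMap (integralClosure ℤ ℚ⟮w⟯) ℚ⟮w⟯ ζ₁ = Wc b w₀ i ^ 2 + 3 := by
    rw [hζ₁, map_add, map_pow, ← W_map, hval, map_ofNat]
  have hζ0 : algebraMap (integralClosure ℤ ℚ⟮w⟯) ℚ⟮w⟯ ζ₁ ≠ 0 := by
    intro h0
    apply hne3
    have h1 : algebraMap ℚ⟮w⟯ ℂ (Wc b w₀ i ^ 2 + 3) = Wc b w i ^ 2 + 3 := by
      rw [map_add, map_pow, ← W_map, hgen, map_ofNat]
    rw [← h1, ← hζ, h0, map_zero]
  obtain ⟨z, hz⟩ := IsIntegrallyClosed.isIntegral_iff.1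
    (Algebra.isIntegral_norm ℚ (x := algebraMap (integralClosure ℤ ℚ⟮w⟯) ℚ⟮w⟯ ζ₁) ζ₁.2)
  have hz0 : z ≠ 0 := by
    intro h0
    rw [h0, map_zero] at hz
    exact hζ0 (Algebra.norm_eq_zero_iff.1 hz.symm)
  have hzn : 1 ≤ ‖algebraMap ℚ ℂ (algebraMap ℤ ℚ z)‖ := by
    have h1 : algebraMap ℚ ℂ (algebraMap ℤ ℚ z) = ((z : ℤ) : ℂ) := by simp
    rw [h1, Complex.norm_intCast]
    have h2 : (1 : ℤ) ≤ |z| := Int.one_le_abs hz0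
    exact_mod_cast h2
  have hprodz := Algebra.norm_eq_prod_embeddings ℚ ℂ
    (algebraMap (integralClosure ℤ ℚ⟮w⟯) ℚ⟮w⟯ ζ₁)
  rw [← hz] at hprodz
  have hne : (Finset.univ : Finset (ℚ⟮w⟯ →ₐ[ℚ] ℂ)).Nonempty := ⟨ℚ⟮w⟯.val, Finset.mem_univ _⟩
  have hlt := Finset.prod_lt_prod_of_nonempty (s := (Finset.univ : Finset (ℚ⟮w⟯ →ₐ[ℚ] ℂ)))
    (f := fun σ => ‖σ (algebraMap (integralClosure ℤ ℚ⟮w⟯) ℚ⟮w⟯ ζ₁)‖ ^ 4)
    (g := fun σ => ‖σ (algebraMap (integralClosure ℤ ℚ⟮w⟯) ℚ⟮w⟯ η₁)‖ ^ 5)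
    (fun σ _ => pow_pos (norm_pos_iff.2 fun h0 => hζ0 (σ.toRingHom.injective (by
      rw [map_zero]; exact h0))) 4)
    (fun σ _ => by
      have h2 := hall (σ w₀) (hCl σ)
      have h3 : Wc b (σ w₀) i = σ (Wc b w₀ i) := W_map σ.toRingHom b w₀ i
      rw [h3] at h2
      rw [hη, hζ, map_add, map_pow, map_ofNat, map_add, map_pow, map_ofNat]
      exact h2) hne
  rw [Finset.prod_pow, Finset.prod_pow, ← norm_prod, ← norm_prod, ← hprod, ← hprodz, hnormone]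
    at hlt
  have h1 := one_le_pow₀ hzn (n := 4)
  rw [one_pow] at hlt
  exact absurd hlt (not_lt.2 h1)

end Pool.Agent.PT51
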