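import Pool.Agent.PT42.Norm
import Pool.Agent.PT51.NormS38

/-!
# PT51/Norm: the norm argument with an auxiliary factor

PROOF.  As `PT42.norm_arg`: if `LL b n w = 1` then `η = W_i² + 4` is a unit of the ring of integers of
`ℚ(w)`, so the product of the `‖σ η‖` is 1.  `η - 1 = W_i² + 3` is a nonzero algebraic integer, so the
product of the `‖σ (η - 1)‖` is at least 1.  But `‖σ (η - 1)‖ ^ 4 < ‖σ η‖ ^ 5` for all `σ`.
-/

set_option autoImplicit false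

namespace Pool.Agent.PT51

open Pool.Agent.DFJ Pool.Agent.TBK Pool.Agent.PT42 IntermediateField

theorem norm_arg2 {n : ℕ} {b : ℕ → ℤ} {w : ℂ} (h : Cl n b w) {i : ℕ} (hi : 1 ≤ i) (hin : i ≤ n)
    (hbi : (b i).natAbs = 2) (hne : Wc b w i ^ 2 + 3 ≠ 0)
    (hall : ∀ w' : ℂ, Cl n b w' → ‖Wc b w' i ^ 2 + 3‖ ^ 4 < ‖Wc b w' i ^ 2 + 4‖ ^ 5) :
    LL b n w ≠ 1 :=
  norm_arg2_s38 h hi hin hbi hne hall

end Pool.Agent.PT51
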