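import Pool.Agent.PT42.Grow2

/-!
# PT51/Near: one of the neighbours of a term with parameter 2 is large

PROOF.  With `s = c² + 2`, `σ = u + u'`, `D = u - u'`: `s² D² = c² (c² + 4) σ² + 4 s² c⁴`
(from `Sy 2`, `te 2 s = s² - 2`, `al 2 s = s`, `s² - 4 = c² (c² + 4)`), and
`‖σ‖² + ‖D‖² = 2 (‖u‖² + ‖u'‖²) ≤ 4 b²`.  Norms:
`4 ‖s‖² ‖c‖⁴ ≤ ‖s‖² ‖D‖² + ‖c‖² ‖c² + 4‖ ‖σ‖²`.  If `‖c‖² ‖c² + 4‖ ≤ ‖s‖²` the right side is at most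
`‖s‖² 4 b²`, otherwise at most `‖c‖² ‖c² + 4‖ 4 b²`.
-/

set_option autoImplicit false

namespace Pool.Agent.PT51

open Pool.Agent.DFJ Pool.Agent.TBK Pool.Agent.PT42

theorem near {u c u' : ℂ} (h : Sy 2 u c u') {b : ℝ} (hu : ‖u‖ ≤ b) (hu' : ‖u'‖ ≤ b)
    (hs : c ^ 2 + 2 ≠ 0) :
    ‖c‖ ^ 4 ≤ b ^ 2 ∨ ‖c‖ ^ 2 * ‖c ^ 2 + 2‖ ^ 2 ≤ b ^ 2 * ‖c ^ 2 + 4‖ := by
  have e1 : 4 * ((c ^ 2 + 2) ^ 2 * c ^ 4) =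
      (c ^ 2 + 2) ^ 2 * (u - u') ^ 2 - c ^ 2 * (c ^ 2 + 4) * (u + u') ^ 2 := by
    have e0 : te 2 (c ^ 2 + 2) = (c ^ 2 + 2) * (c ^ 2 + 2) - 2 := rfl
    have e00 : al 2 (c ^ 2 + 2) = (c ^ 2 + 2) * 1 - 0 := rfl
    have h' := h
    unfold Sy at h'
    rw [e0, e00] at h'
    linear_combination (-4) * h'
  have e2 : 4 * (‖c ^ 2 + 2‖ ^ 2 * ‖c‖ ^ 4) ≤
      ‖c ^ 2 + 2‖ ^ 2 * ‖u - u'‖ ^ 2 + ‖c‖ ^ 2 * ‖c ^ 2 + 4‖ * ‖u + u'‖ ^ 2 := by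
    have a1 := norm_sub_le ((c ^ 2 + 2) ^ 2 * (u - u') ^ 2) (c ^ 2 * (c ^ 2 + 4) * (u + u') ^ 2)
    rw [← e1] at a1
    have a2 : ‖4 * ((c ^ 2 + 2) ^ 2 * c ^ 4)‖ = 4 * (‖c ^ 2 + 2‖ ^ 2 * ‖c‖ ^ 4) := by
      rw [norm_mul, norm_mul, norm_pow, norm_pow]
      norm_num
    have a3 : ‖(c ^ 2 + 2) ^ 2 * (u - u') ^ 2‖ = ‖c ^ 2 + 2‖ ^ 2 * ‖u - u'‖ ^ 2 := by
      rw [norm_mul, norm_pow, norm_pow]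
    have a4 : ‖c ^ 2 * (c ^ 2 + 4) * (u + u') ^ 2‖ = ‖c‖ ^ 2 * ‖c ^ 2 + 4‖ * ‖u + u'‖ ^ 2 := by
      rw [norm_mul, norm_mul, norm_pow, norm_pow]
    rw [a2, a3, a4] at a1
    exact a1
  have hu2 : ‖u‖ ^ 2 ≤ b ^ 2 := pow_le_pow_left₀ (norm_nonneg _) hu 2
  have hu2' : ‖u'‖ ^ 2 ≤ b ^ 2 := pow_le_pow_left₀ (norm_nonneg _) hu' 2
  have e3 : ‖u + u'‖ ^ 2 + ‖u - u'‖ ^ 2 ≤ 4 * b ^ 2 := by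
    have := parallelogram_law_with_norm ℝ u u'
    nlinarith
  have hP : 0 < ‖c ^ 2 + 2‖ ^ 2 := by
    have : 0 < ‖c ^ 2 + 2‖ := norm_pos_iff.2 hs
    positivity
  have hD := sq_nonneg ‖u - u'‖
  have hσ := sq_nonneg ‖u + u'‖
  have hb := sq_nonneg b
  rcases le_total (‖c‖ ^ 2 * ‖c ^ 2 + 4‖) (‖c ^ 2 + 2‖ ^ 2) with hQ | hQ
  · left
    have e4 : ‖c‖ ^ 2 * ‖c ^ 2 + 4‖ * ‖u + u'‖ ^ 2 ≤ ‖c ^ 2 + 2‖ ^ 2 * ‖u + u'‖ ^ 2 :=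
      mul_le_mul_of_nonneg_right hQ hσ
    have e5 : ‖c ^ 2 + 2‖ ^ 2 * (‖u + u'‖ ^ 2 + ‖u - u'‖ ^ 2) ≤ ‖c ^ 2 + 2‖ ^ 2 * (4 * b ^ 2) :=
      mul_le_mul_of_nonneg_left e3 hP.le
    have e6 : ‖c ^ 2 + 2‖ ^ 2 * ‖c‖ ^ 4 ≤ ‖c ^ 2 + 2‖ ^ 2 * b ^ 2 := by linarith
    exact le_of_mul_le_mul_left e6 hP
  · rcases (norm_nonneg c).eq_or_lt with hc | hc
    · left
      rw [← hc]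
      nlinarith
    · right
      have hc2 : 0 < ‖c‖ ^ 2 := by positivity
      have e4 : ‖c ^ 2 + 2‖ ^ 2 * ‖u - u'‖ ^ 2 ≤ ‖c‖ ^ 2 * ‖c ^ 2 + 4‖ * ‖u - u'‖ ^ 2 :=
        mul_le_mul_of_nonneg_right hQ hD
      have e5 : ‖c‖ ^ 2 * ‖c ^ 2 + 4‖ * (‖u + u'‖ ^ 2 + ‖u - u'‖ ^ 2) ≤
          ‖c‖ ^ 2 * ‖c ^ 2 + 4‖ * (4 * b ^ 2) :=
        mul_le_mul_of_nonneg_left e3 (by positivity)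
      have e6 : ‖c‖ ^ 2 * (‖c‖ ^ 2 * ‖c ^ 2 + 2‖ ^ 2) ≤ ‖c‖ ^ 2 * (b ^ 2 * ‖c ^ 2 + 4‖) := by
        nlinarith
      exact le_of_mul_le_mul_left e6 hc2

end Pool.Agent.PT51
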