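import Pool.Agent.PT42.Grow2

/-!
# PT51/Next: after a large neighbour the chain escapes

PROOF.  `m ≥ 2`: `Sy.grow` gives `(‖v‖² - 1) ‖v‖² ≤ ‖w‖² ≤ (‖v‖ + 2)²`, impossible for `‖v‖ > 3`.
`m = 1`: `(c - w)² = v² (v² + c w)`, hence `(2 v² + c w)² = (c² + 4) w² - 8 c w + 4 c²`, so
`2 ‖v‖² - ‖c‖ ‖w‖ ≤ ‖2 v² + c w‖` and
`‖2 v² + c w‖² ≤ ‖c² + 4‖ ‖w‖² + 8 ‖c‖ ‖w‖ + 4 ‖c‖²`; both with `‖w‖ ≤ ‖v‖ + 2`.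
-/

set_option autoImplicit false

namespace Pool.Agent.PT51

open Pool.Agent.DFJ Pool.Agent.TBK Pool.Agent.PT42

theorem next {m : ℕ} (hm : 1 ≤ m) {c v w : ℂ} (h : Sy m c v w) (h3 : 3 < ‖v‖)
    (hcv : ‖c‖ ≤ ‖v‖) (hw : ‖w‖ ≤ ‖v‖ + 2) (h1 : ‖c‖ * (‖v‖ + 2) < 2 * ‖v‖ ^ 2)
    (h2 : ‖c ^ 2 + 4‖ * (‖v‖ + 2) ^ 2 + 8 * ‖c‖ * (‖v‖ + 2) + 4 * ‖c‖ ^ 2 <
      (2 * ‖v‖ ^ 2 - ‖c‖ * (‖v‖ + 2)) ^ 2) : False := by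
  have hw0 := norm_nonneg w
  have hc0 := norm_nonneg c
  rcases hm.eq_or_lt with hm1 | hm1
  · subst hm1
    have e1 : (2 * v ^ 2 + c * w) ^ 2 = (c ^ 2 + 4) * w ^ 2 - 8 * (c * w) + 4 * c ^ 2 := by
      have e0 : te 1 (v ^ 2 + 2) = v ^ 2 + 2 := rfl
      have e00 : al 1 (v ^ 2 + 2) = 1 := rfl
      have h' := h
      unfold Sy at h'
      rw [e0, e00] at h'
      linear_combination (-4) * h'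
    have e2 : ‖2 * v ^ 2 + c * w‖ ^ 2 ≤ ‖c ^ 2 + 4‖ * ‖w‖ ^ 2 + 8 * ‖c‖ * ‖w‖ + 4 * ‖c‖ ^ 2 := by
      rw [← norm_pow, e1]
      have a1 := norm_add_le ((c ^ 2 + 4) * w ^ 2 - 8 * (c * w)) (4 * c ^ 2)
      have a2 := norm_sub_le ((c ^ 2 + 4) * w ^ 2) (8 * (c * w))
      have a3 : ‖(c ^ 2 + 4) * w ^ 2‖ = ‖c ^ 2 + 4‖ * ‖w‖ ^ 2 := by rw [norm_mul, norm_pow]
      have a4 : ‖8 * (c * w)‖ = 8 * ‖c‖ * ‖w‖ := by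
        rw [norm_mul, norm_mul]
        norm_num
        ring
      have a5 : ‖4 * c ^ 2‖ = 4 * ‖c‖ ^ 2 := by
        rw [norm_mul, norm_pow]
        norm_num
      linarith
    have e3 : 2 * ‖v‖ ^ 2 - ‖c‖ * ‖w‖ ≤ ‖2 * v ^ 2 + c * w‖ := by
      have a1 := norm_sub_le (2 * v ^ 2 + c * w) (c * w)
      rw [add_sub_cancel_right] at a1
      have a2 : ‖2 * v ^ 2‖ = 2 * ‖v‖ ^ 2 := by
        rw [norm_mul, norm_pow]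
        norm_num
      have a3 : ‖c * w‖ = ‖c‖ * ‖w‖ := norm_mul _ _
      linarith
    have e4 : ‖c‖ * ‖w‖ ≤ ‖c‖ * (‖v‖ + 2) := mul_le_mul_of_nonneg_left hw hc0
    have e5 : ‖w‖ ^ 2 ≤ (‖v‖ + 2) ^ 2 := pow_le_pow_left₀ hw0 hw 2
    have e6 : ‖c ^ 2 + 4‖ * ‖w‖ ^ 2 ≤ ‖c ^ 2 + 4‖ * (‖v‖ + 2) ^ 2 :=
      mul_le_mul_of_nonneg_left e5 (norm_nonneg _)
    have e7 : (2 * ‖v‖ ^ 2 - ‖c‖ * (‖v‖ + 2)) ^ 2 ≤ ‖2 * v ^ 2 + c * w‖ ^ 2 :=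
      pow_le_pow_left₀ (by linarith) (by linarith) 2
    nlinarith
  · have h4 := h.grow hm1 (by linarith) hcv
    have h5 : ‖w‖ ^ 2 ≤ (‖v‖ + 2) ^ 2 := pow_le_pow_left₀ hw0 hw 2
    nlinarith [sq_nonneg ‖v‖, mul_pos (show 0 < ‖v‖ - 3 by linarith) (show 0 < ‖v‖ by linarith),
      mul_nonneg (show 0 ≤ ‖v‖ ^ 2 - 9 by nlinarith) (sq_nonneg ‖v‖)]

end Pool.Agent.PT51
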