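import Pool.Agent.PT51.Real
import Pool.Agent.PT51.Near
import Pool.Agent.PT51.Next
import Pool.Agent.PT51.Steps

/-!
# PT51/Point: the pointwise inequality
-/

set_option autoImplicit false

namespace Pool.Agent.PT51

open Pool.Agent.DFJ Pool.Agent.TBK Pool.Agent.PT42

theorem nsq (z : ℂ) : ‖z‖ ^ 2 = z.re ^ 2 + z.im ^ 2 := by
  rw [Complex.sq_norm, Complex.normSq_apply]
  ring

theorem key {u c v : ℂ} (h : Sy 2 u c v) (huv : ‖u‖ ≤ ‖v‖) (hvc : ‖v‖ ≤ ‖c‖ + 2)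
    (hle : ‖c ^ 2 + 4‖ ^ 5 ≤ ‖c ^ 2 + 3‖ ^ 4) :
    3 < ‖v‖ ∧ ‖c‖ ≤ ‖v‖ ∧ ‖c‖ * (‖v‖ + 2) < 2 * ‖v‖ ^ 2 ∧
      ‖c ^ 2 + 4‖ * (‖v‖ + 2) ^ 2 + 8 * ‖c‖ * (‖v‖ + 2) + 4 * ‖c‖ ^ 2 <
        (2 * ‖v‖ ^ 2 - ‖c‖ * (‖v‖ + 2)) ^ 2 := by
  obtain ⟨t, ht0, ht⟩ : ∃ t : ℝ, 0 ≤ t ∧ t ^ 2 = ‖c ^ 2 + 4‖ :=
    ⟨√‖c ^ 2 + 4‖, Real.sqrt_nonneg _, Real.sq_sqrt (norm_nonneg _)⟩
  obtain ⟨e, he⟩ : ∃ e : ℂ, e = c ^ 2 + 4 := ⟨_, rfl⟩
  have hc3 : c ^ 2 + 3 = e - 1 := by rw [he]; ring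
  have hc2 : c ^ 2 + 2 = e - 2 := by rw [he]; ring
  have hcc : c ^ 2 = e - 4 := by rw [he]; ring
  have n3 : ‖c ^ 2 + 3‖ ^ 2 = 1 - 2 * e.re + t ^ 4 := by
    have h4 : t ^ 4 = e.re ^ 2 + e.im ^ 2 := by
      rw [← nsq, he, ← ht]
      ring
    rw [hc3, nsq, h4, Complex.sub_re, Complex.sub_im, Complex.one_re, Complex.one_im]
    ring
  have n2 : ‖c ^ 2 + 2‖ ^ 2 = 4 - 4 * e.re + t ^ 4 := by
    have h4 : t ^ 4 = e.re ^ 2 + e.im ^ 2 := by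
      rw [← nsq, he, ← ht]
      ring
    rw [hc2, nsq, h4, Complex.sub_re, Complex.sub_im, Complex.re_ofNat, Complex.im_ofNat]
    ring
  have n4 : ‖c‖ ^ 4 = 16 - 8 * e.re + t ^ 4 := by
    have h4 : t ^ 4 = e.re ^ 2 + e.im ^ 2 := by
      rw [← nsq, he, ← ht]
      ring
    have : ‖c‖ ^ 4 = ‖c ^ 2‖ ^ 2 := by rw [norm_pow]; ring
    rw [this, hcc, nsq, h4, Complex.sub_re, Complex.sub_im, Complex.re_ofNat, Complex.im_ofNat]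
    ring
  have hE : t ^ 5 ≤ 1 - 2 * e.re + t ^ 4 := by
    rw [← n3]
    have h1 : (t ^ 5) ^ 2 ≤ (‖c ^ 2 + 3‖ ^ 2) ^ 2 := by
      calc (t ^ 5) ^ 2 = ‖c ^ 2 + 4‖ ^ 5 := by rw [← ht]; ring
        _ ≤ ‖c ^ 2 + 3‖ ^ 4 := hle
        _ = _ := by ring
    exact (pow_le_pow_iff_left₀ (by positivity) (by positivity) two_ne_zero).1 h1
  have hs : c ^ 2 + 2 ≠ 0 := by
    intro h0
    have h3 : c ^ 2 + 3 = 1 := by linear_combination h0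
    have h4 : c ^ 2 + 4 = 2 := by linear_combination h0
    rw [h3, h4] at hle
    norm_num at hle
  have hn := near h huv le_rfl hs
  rw [← ht, n2] at hn
  have := real_main (a := ‖c‖) (b := ‖v‖) (t := t) (x := e.re) (norm_nonneg _) (norm_nonneg _) ht0
    n4 (by linarith) hvc hn
  rw [ht] at this
  exact this

theorem point {n : ℕ} {F : ℕ → ℂ} {m : ℕ → ℕ}
    (hS : ∀ j, 1 ≤ j → j ≤ n → Sy (m j) (F (j - 1)) (F j) (F (j + 1)))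
    (hm : ∀ j, 1 ≤ j → j ≤ n → 1 ≤ m j) (h0 : F 0 = 0) (hend : F (n + 1) = 0)
    {i : ℕ} (hi : 1 ≤ i) (hin : i ≤ n) (hmi : m i = 2) :
    ‖F i ^ 2 + 3‖ ^ 4 < ‖F i ^ 2 + 4‖ ^ 5 := by
  by_contra hle
  rw [not_lt] at hle
  have hs := hS i hi hin
  rw [hmi] at hs
  have hR := steps hS hm h0 hend (j := i) hin
  have hL := steps hS hm h0 hend (j := i - 1) (by omega)
  rw [show i - 1 + 1 = i by omega] at hL
  rcases le_total ‖F (i - 1)‖ ‖F (i + 1)‖ with hlr | hlr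
  · obtain ⟨k1, k2, k3, k4⟩ := key hs hlr hR.1 hle
    have hlt : i + 1 ≤ n := by
      by_contra hcon
      have : i + 1 = n + 1 := by omega
      rw [this, hend, norm_zero] at k1
      linarith
    have hs' := hS (i + 1) (by omega) hlt
    rw [show i + 1 - 1 = i by omega] at hs'
    exact next (hm (i + 1) (by omega) hlt) hs' k1 k2
      (steps hS hm h0 hend (j := i + 1) hlt).1 k3 k4
  · obtain ⟨k1, k2, k3, k4⟩ := key hs.symm hlr hL.2 hle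
    have hlt : 1 ≤ i - 1 := by
      by_contra hcon
      have : i - 1 = 0 := by omega
      rw [this, h0, norm_zero] at k1
      linarith
    have hs' := (hS (i - 1) hlt (by omega)).symm
    rw [show i - 1 + 1 = i by omega] at hs'
    have hw := (steps hS hm h0 hend (j := i - 1 - 1) (by omega)).2
    rw [show i - 1 - 1 + 1 = i - 1 by omega] at hw
    exact next (hm (i - 1) hlt (by omega)) hs' k1 k2 hw k3 k4

end Pool.Agent.PT51
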