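import Pool.Agent.PT42.Final
import Pool.Agent.PT51.Point
import Pool.Agent.PT51.Norm

/-!
# PT51/Final: two-bridge knots with an entry 2
-/

set_option autoImplicit false

namespace Pool.Agent.PT51

open Pool.Agent.DFJ Pool.Agent.TBK Pool.Agent.PT42 LaurentPolynomial

variable {g : ℕ} {a : ℕ → ℤ}

theorem LL_ne2 {i : ℕ} (hi : 1 ≤ i) (hig : i ≤ 2 * g) (hai : |a i| = 2)
    {w : ℂ} (h : Cl (2 * g) (sg a) w) (hs : NTs (2 * g) (sg a) w) : LL (sg a) (2 * g) w ≠ 1 := by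
  have hai' : (sg a i).natAbs = 2 := by
    rw [sg_natAbs]
    have : ((a i).natAbs : ℤ) = 2 := by rw [← Int.abs_eq_natAbs]; exact hai
    exact_mod_cast this
  refine norm_arg2 h hi hig hai' ?_ fun w' h' => ?_
  · intro h0
    refine hs i hi hig 3 (by norm_num) ?_
    rw [show (3 : ℕ) = 1 + 2 from rfl, al_step, al_one, show (1 + 1 : ℕ) = 0 + 2 from rfl, al_step,
      al_zero, zero_add, al_one]
    linear_combination (Wc (sg a) w i ^ 2 + 1) * h0
  · refine point (n := 2 * g) (F := fun j => Wc (sg a) w' j) (m := fun j => (sg a j).natAbs)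
      (fun j h1 h2 => ?_) (fun j h1 h2 => ?_) rfl h'.close hi hig hai'
    · obtain ⟨k, rfl⟩ : ∃ k, j = k + 1 := ⟨j - 1, by omega⟩
      exact chain_sy (sg a) w' k
    · exact Nat.one_le_iff_ne_zero.2 (Int.natAbs_ne_zero.2 (h'.ne j h1 h2))

theorem two_conj (hg : 1 ≤ g) (ha : ∀ j, 1 ≤ j → j ≤ 2 * g → a j ≠ 0)
    (hw : ∃ i, 1 ≤ i ∧ i ≤ 2 * g ∧ |a i| = 2) :
    Conj g a ∧ ¬ (commutator (TBGroup g a)).FG := by
  obtain ⟨i, hi, hig, hai⟩ := hw
  refine ⟨fun φ hφ α hα => ?_, ?_⟩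
  · obtain ⟨h1, h2⟩ := part_one hg ha hφ hα
    refine ⟨h1, fun τ hτ => ⟨(h2 τ hτ).1, ?_⟩⟩
    refine monic_iff hg ha hφ hα hτ fun w hc hs _ hL => ?_
    exact absurd hL (LL_ne2 hi hig hai hc hs)
  · rw [fg_iff' ha]
    intro h
    have h1 := h i hi hig
    rw [Int.abs_eq_natAbs, h1] at hai
    norm_num at hai

end Pool.Agent.PT51
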