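import Pool.Agent.PT51.Final

/-!
# PT51/Count: how many two-bridge knots are left
-/

set_option autoImplicit false

namespace Pool.Agent.PT51

open Pool.Agent.DFJ Pool.Agent.TBK Pool.Agent.PT42

theorem one_conj {g : ℕ} {a : ℕ → ℤ} (hg : 1 ≤ g) (ha : ∀ j, 1 ≤ j → j ≤ 2 * g → |a j| = 1) :
    Conj g a := by
  have hn : ∀ j, 1 ≤ j → j ≤ 2 * g → (a j).natAbs = 1 := fun j h1 h2 => by
    have h := ha j h1 h2
    rw [Int.abs_eq_natAbs] at h
    exact_mod_cast h
  have h0 : ∀ j, 1 ≤ j → j ≤ 2 * g → a j ≠ 0 := fun j h1 h2 h => by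
    have := ha j h1 h2
    rw [h] at this
    norm_num at this
  intro φ hφ α hα
  obtain ⟨h1, h2⟩ := part_one hg h0 hφ hα
  exact ⟨h1, fun τ hτ => ⟨(h2 τ hτ).1, monic_iff hg h0 hφ hα hτ fun w _ _ _ _ => hn⟩⟩

theorem card_bad {g X : ℕ} (hg : 1 ≤ g) (hX : 2 ≤ X) :
    Nat.card {a : Fin (2 * g) → ℤ // (∀ j, a j ≠ 0 ∧ |a j| ≤ (X : ℤ)) ∧ ¬ Conj g (ext g a)} ≤
      (2 * X - 2) ^ (2 * g) - 2 ^ (2 * g) := by
  have hlt : ∀ j : ℕ, 1 ≤ j → j ≤ 2 * g → j - 1 < 2 * g := fun j h1 h2 => by omega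
  have hext : ∀ (a : Fin (2 * g) → ℤ) (j : ℕ) (h1 : 1 ≤ j) (h2 : j ≤ 2 * g),
      ext g a j = a ⟨j - 1, hlt j h1 h2⟩ := fun a j h1 h2 => by
    unfold ext
    rw [dif_pos (hlt j h1 h2)]
  set S : Finset ℤ := Finset.Icc (-(X : ℤ)) X \ {0, 2, -2} with hS
  set U : Finset ℤ := {1, -1} with hU
  have hUS : U ⊆ S := by
    intro z hz
    rw [hU, Finset.mem_insert, Finset.mem_singleton] at hz
    rw [hS, Finset.mem_sdiff, Finset.mem_Icc]
    simp only [Finset.mem_insert, Finset.mem_singleton]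
    omega
  have hScard : S.card = 2 * X - 2 := by
    have h1 : ({0, 2, -2} : Finset ℤ) ⊆ Finset.Icc (-(X : ℤ)) X := by
      intro z hz
      simp only [Finset.mem_insert, Finset.mem_singleton] at hz
      rw [Finset.mem_Icc]
      omega
    rw [hS, Finset.card_sdiff_of_subset h1, Int.card_Icc]
    have h2 : ({0, 2, -2} : Finset ℤ).card = 3 := by decide
    rw [h2]
    omega
  have hUcard : U.card = 2 := by rw [hU]; decide
  set B : Finset (Fin (2 * g) → ℤ) :=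
    (Fintype.piFinset fun _ => S) \ Fintype.piFinset fun _ => U with hB
  have hBcard : B.card = (2 * X - 2) ^ (2 * g) - 2 ^ (2 * g) := by
    rw [hB, Finset.card_sdiff_of_subset (Fintype.piFinset_subset _ _ fun _ => hUS),
      Fintype.card_piFinset_const, Fintype.card_piFinset_const, hScard, hUcard]
  have hsub : {a : Fin (2 * g) → ℤ | (∀ j, a j ≠ 0 ∧ |a j| ≤ (X : ℤ)) ∧ ¬ Conj g (ext g a)} ⊆
      (B : Set (Fin (2 * g) → ℤ)) := by
    rintro a ⟨h1, h2⟩
    rw [hB, Finset.mem_coe, Finset.mem_sdiff, Fintype.mem_piFinset, Fintype.mem_piFinset]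
    constructor
    · intro j
      rw [hS, Finset.mem_sdiff, Finset.mem_Icc]
      have h3 := (abs_le.1 (h1 j).2)
      refine ⟨h3, fun h4 => ?_⟩
      simp only [Finset.mem_insert, Finset.mem_singleton] at h4
      rcases h4 with h4 | h4
      · exact (h1 j).1 h4
      · apply h2
        refine (two_conj hg (fun i hi hi' => ?_) ⟨j + 1, by omega, by omega, ?_⟩).1
        · rw [hext a i hi hi']
          exact (h1 _).1
        · rw [hext a (j + 1) (by omega) (by omega)]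
          have h5 : (⟨(j : ℕ) + 1 - 1, hlt _ (by omega) (by omega)⟩ : Fin (2 * g)) = j :=
            Fin.ext (by simp)
          rw [h5]
          rcases h4 with h4 | h4 <;> rw [h4] <;> norm_num
    · intro h3
      apply h2
      refine one_conj hg fun i hi hi' => ?_
      rw [hext a i hi hi']
      have h4 := h3 ⟨i - 1, hlt i hi hi'⟩
      rw [hU, Finset.mem_insert, Finset.mem_singleton] at h4
      rcases h4 with h4 | h4 <;> rw [h4] <;> norm_num
  calc Nat.card {a : Fin (2 * g) → ℤ // (∀ j, a j ≠ 0 ∧ |a j| ≤ (X : ℤ)) ∧ ¬ Conj g (ext g a)}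
      = {a : Fin (2 * g) → ℤ |
          (∀ j, a j ≠ 0 ∧ |a j| ≤ (X : ℤ)) ∧ ¬ Conj g (ext g a)}.ncard := rfl
    _ ≤ (B : Set (Fin (2 * g) → ℤ)).ncard := Set.ncard_le_ncard hsub B.finite_toSet
    _ = (2 * X - 2) ^ (2 * g) - 2 ^ (2 * g) := by rw [Set.ncard_coe_finset, hBcard]

end Pool.Agent.PT51
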