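import Pool.Agent.PT51.RealS96

/-!
# PT51/Real: the real inequality

`a = ‖c‖`, `t ^ 2 = ‖c ^ 2 + 4‖`, `x = Re (c ^ 2 + 4)`, `b` is the norm of the larger neighbour.

PAPER PROOF.  From `hE`: `a⁴ = 16 - 8x + t⁴ ≥ 12 - 3t⁴ + 4t⁵ ≥ 11.92` (the minimum of `4t⁵ - 3t⁴` is at
`t = 3/5`, value `-0.07776`), so `a ≥ 1.858`; and `4 - 4x + t⁴ ≥ 2 - t⁴ + 2t⁵ ≥ 3t²` because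
`2t⁵ - t⁴ - 3t² + 2 = (t - 1)² (2t³ + 3t² + 4t + 2)`.

CASE A, `a⁴ ≤ b²`, i.e. `a² ≤ b`.  Then `a² ≤ a + 2`, `a ≤ 2`, `8x ≥ t⁴`, so `4t⁵ ≤ 4 + 3t⁴`, `t² ≤ 3/2`.
`b ≥ a² ≥ 3.45`.  With `a ≤ 2`, `t² ≤ 3/2`: RHS `≥ (2b² - 2(b+2))²`, LHS
`≤ (3/2)(b+2)² + 16(b+2) + 16`; true for `b ≥ 3.45` (at 3.45: 166.5 > 147.8).

CASE B, `a²(4 - 4x + t⁴) ≤ b²t²`.  `t > 0`, and `a²(2 - t⁴ + 2t⁵) ≤ b²t²`, so `3a² ≤ b²`.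
 B1: `t ≤ 1`: `a ≥ 1.858`, `b ≥ 3.218`; use `a ≤ b/√3` (`√3 > 1.732`) in `2b² - a(b+2)` and in the LHS:
   per `b²`: LHS `4/3 + (8/√3)(1+2/b) + t²(1+2/b)² ≤ 11.46`, RHS `(2b - (b+2)/√3)²/b²·b² ≥ 11.71`.
 B2: `1 ≤ t`, `t² ≤ 1.35`: `a⁴ ≥ 13`, `a ≥ 1.8988`, `b ≥ 3.288`: 12.25 < 12.41.
 B3: `t² ≥ 1.35`: `a⁴ ≥ 15`, `a ≥ 1.967`; `(2 - t⁴ + 2t⁵) ≥ 3.26 t²` (increasing quotient), so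
   `b ≥ 1.805 a`, `b ≥ 3.55`; `0.805 a ≤ 2`, `a ≤ 2.485`, `4t⁵ - 3t⁴ ≤ a⁴ - 12 ≤ 26.2`, `t² ≤ 2.7`:
   14.8 < 16.2.
-/

set_option autoImplicit false

namespace Pool.Agent.PT51

theorem real_main {a b t x : ℝ} (ha : 0 ≤ a) (hb : 0 ≤ b) (ht : 0 ≤ t)
    (h4 : a ^ 4 = 16 - 8 * x + t ^ 4) (hE : 2 * x ≤ 1 + t ^ 4 - t ^ 5) (hba : b ≤ a + 2)
    (hA : a ^ 4 ≤ b ^ 2 ∨ a ^ 2 * (4 - 4 * x + t ^ 4) ≤ b ^ 2 * t ^ 2) :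
    3 < b ∧ a ≤ b ∧ a * (b + 2) < 2 * b ^ 2 ∧
      t ^ 2 * (b + 2) ^ 2 + 8 * a * (b + 2) + 4 * a ^ 2 < (2 * b ^ 2 - a * (b + 2)) ^ 2 :=
  real_main96 ha hb ht h4 hE hba hA

end Pool.Agent.PT51
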