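import Mathlib

/-!
# PT51/RealS40: the real inequality (proof by helper40)
-/

set_option autoImplicit false

namespace Pool.Agent.PT51.S40

/-- The common final step. -/
theorem core {a b t κ τ b0 : ℝ} (ha : 0 ≤ a) (hb0 : 0 < b0) (hb : b0 ≤ b) (hκ : 0 ≤ κ)
    (hκ2 : κ ≤ 2) (hτ0 : 0 ≤ τ) (hab : a ≤ κ * b) (hτ : t ^ 2 ≤ τ)
    (hr : 0 < 2 * b0 - κ * (b0 + 2))
    (hnum : τ * (b0 + 2) ^ 2 + 8 * κ * b0 * (b0 + 2) + 4 * κ ^ 2 * b0 ^ 2 <
      b0 ^ 2 * (2 * b0 - κ * (b0 + 2)) ^ 2) :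
    a * (b + 2) < 2 * b ^ 2 ∧
      t ^ 2 * (b + 2) ^ 2 + 8 * a * (b + 2) + 4 * a ^ 2 < (2 * b ^ 2 - a * (b + 2)) ^ 2 := by
  have hbp : 0 < b := lt_of_lt_of_le hb0 hb
  set r := 2 * b0 - κ * (b0 + 2) with hr_def
  -- the lower bound of the right side
  have hq : b * r ≤ 2 * b ^ 2 - a * (b + 2) := by
    have h1 : a * (b + 2) ≤ κ * b * (b + 2) := mul_le_mul_of_nonneg_right hab (by linarith)
    have h2 : 0 ≤ (2 - κ) * (b - b0) := mul_nonneg (by linarith) (by linarith)
    have h3 : b * r ≤ b * (2 * b - κ * (b + 2)) :=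
      mul_le_mul_of_nonneg_left (by rw [hr_def]; nlinarith) hbp.le
    nlinarith
  have hbr : 0 < b * r := mul_pos hbp hr
  refine ⟨by linarith, ?_⟩
  have hP : (b * r) ^ 2 ≤ (2 * b ^ 2 - a * (b + 2)) ^ 2 := pow_le_pow_left₀ hbr.le hq 2
  refine lt_of_lt_of_le ?_ hP
  -- the upper bound of the left side, times `b0 ^ 2`
  have hmu : b0 * (b + 2) ≤ (b0 + 2) * b := by linarith
  have hmu0 : 0 ≤ b0 * (b + 2) := mul_nonneg hb0.le (by linarith)
  have e1 : t ^ 2 * (b0 * (b + 2)) ^ 2 ≤ τ * ((b0 + 2) * b) ^ 2 :=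
    mul_le_mul hτ (pow_le_pow_left₀ hmu0 hmu 2) (by positivity) hτ0
  have e2 : a * (b0 * (b + 2)) ≤ κ * b * ((b0 + 2) * b) :=
    mul_le_mul hab hmu hmu0 (mul_nonneg hκ hbp.le)
  have e3 : a ^ 2 ≤ (κ * b) ^ 2 := pow_le_pow_left₀ ha hab 2
  have hb2 : 0 < b ^ 2 := by positivity
  have hb02 : 0 < b0 ^ 2 := by positivity
  have e4 := mul_lt_mul_of_pos_left hnum hb2
  have e5 : b0 ^ 2 * (t ^ 2 * (b + 2) ^ 2 + 8 * a * (b + 2) + 4 * a ^ 2) <
      b0 ^ 2 * (b * r) ^ 2 := by
    have e2' := mul_le_mul_of_nonneg_left e2 (show (0:ℝ) ≤ 8 * b0 by linarith)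
    have e3' := mul_le_mul_of_nonneg_left e3 (show (0:ℝ) ≤ 4 * b0 ^ 2 by positivity)
    calc b0 ^ 2 * (t ^ 2 * (b + 2) ^ 2 + 8 * a * (b + 2) + 4 * a ^ 2)
        = t ^ 2 * (b0 * (b + 2)) ^ 2 + 8 * b0 * (a * (b0 * (b + 2))) + 4 * b0 ^ 2 * a ^ 2 := by
          ring
      _ ≤ τ * ((b0 + 2) * b) ^ 2 + 8 * b0 * (κ * b * ((b0 + 2) * b)) +
          4 * b0 ^ 2 * (κ * b) ^ 2 := by linarith
      _ = b ^ 2 * (τ * (b0 + 2) ^ 2 + 8 * κ * b0 * (b0 + 2) + 4 * κ ^ 2 * b0 ^ 2) := by ring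
      _ < b ^ 2 * (b0 ^ 2 * r ^ 2) := e4
      _ = b0 ^ 2 * (b * r) ^ 2 := by ring
  exact lt_of_mul_lt_mul_left e5 hb02.le

theorem real_main {a b t x : ℝ} (ha : 0 ≤ a) (hb : 0 ≤ b) (ht : 0 ≤ t)
    (h4 : a ^ 4 = 16 - 8 * x + t ^ 4) (hE : 2 * x ≤ 1 + t ^ 4 - t ^ 5) (hba : b ≤ a + 2)
    (hA : a ^ 4 ≤ b ^ 2 ∨ a ^ 2 * (4 - 4 * x + t ^ 4) ≤ b ^ 2 * t ^ 2) :
    3 < b ∧ a ≤ b ∧ a * (b + 2) < 2 * b ^ 2 ∧
      t ^ 2 * (b + 2) ^ 2 + 8 * a * (b + 2) + 4 * a ^ 2 < (2 * b ^ 2 - a * (b + 2)) ^ 2 := by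
  have h12 : 12 - 3 * t ^ 4 + 4 * t ^ 5 ≤ a ^ 4 := by linarith
  have hpoly : 0 ≤ 4 * t ^ 5 - 3 * t ^ 4 + 0.07776 := by
    have : 4 * t ^ 5 - 3 * t ^ 4 + 0.07776 =
        (t - 0.6) ^ 2 * (4 * t ^ 3 + 1.8 * t ^ 2 + 0.72 * t + 0.216) := by ring
    rw [this]
    positivity
  have ha0 : 1.858 ≤ a := by
    by_contra hc
    push Not at hc
    have := pow_lt_pow_left₀ hc ha (by norm_num : (4:ℕ) ≠ 0)
    norm_num at this
    linarith
  rcases hA with hA | hB
  · -- case A
    have hab : a ^ 2 ≤ b := by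
      have : (a ^ 2) ^ 2 ≤ b ^ 2 := by rw [← pow_mul]; exact hA
      exact (pow_le_pow_iff_left₀ (by positivity) hb (by norm_num)).1 this
    have ha2 : a ≤ 2 := by nlinarith
    have hb0 : 3.45 ≤ b := by nlinarith
    have ha16 : a ^ 4 ≤ 16 := by
      have := pow_le_pow_left₀ ha ha2 4
      norm_num at this
      exact this
    have ht2 : t ^ 2 ≤ 1.5 := by
      by_contra hc
      push Not at hc
      have h1 : 1.22 < t := by
        by_contra hd
        push Not at hd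
        have := pow_le_pow_left₀ ht hd 2
        norm_num at this
        linarith
      have h2 : (1.5 : ℝ) ^ 2 < t ^ 4 := by
        have := pow_lt_pow_left₀ hc (by norm_num) (by norm_num : (2:ℕ) ≠ 0)
        calc (1.5 : ℝ) ^ 2 < (t ^ 2) ^ 2 := this
          _ = t ^ 4 := by ring
      have h3 : 4 * t ^ 5 - 3 * t ^ 4 = t ^ 4 * (4 * t - 3) := by ring
      have h4 : t ^ 4 * (4 * t - 3) ≤ 4 := by linarith
      have h5 : (1.5 : ℝ) ^ 2 * (4 * 1.22 - 3) < t ^ 4 * (4 * t - 3) := by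
        apply mul_lt_mul h2 (by linarith) (by norm_num) (by positivity)
      norm_num at h5
      linarith
    obtain ⟨h1, h2⟩ := core (a := a) (b := b) (t := t) (κ := 2 / 3.45) (τ := 1.5) (b0 := 3.45) ha
      (by norm_num) hb0 (by norm_num) (by norm_num) (by norm_num) (by
        rw [div_mul_eq_mul_div, le_div_iff₀ (by norm_num)]; nlinarith) ht2 (by norm_num)
      (by norm_num)
    exact ⟨by linarith, by linarith, h1, h2⟩
  · -- case B
    have hq : 2 - t ^ 4 + 2 * t ^ 5 ≤ 4 - 4 * x + t ^ 4 := by linarith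
    have hB' : a ^ 2 * (2 - t ^ 4 + 2 * t ^ 5) ≤ b ^ 2 * t ^ 2 :=
      (mul_le_mul_of_nonneg_left hq (by positivity)).trans hB
    have hfac : 3 * t ^ 2 ≤ 2 - t ^ 4 + 2 * t ^ 5 := by
      have : 2 - t ^ 4 + 2 * t ^ 5 - 3 * t ^ 2 =
          (t - 1) ^ 2 * (2 * t ^ 3 + 3 * t ^ 2 + 4 * t + 2) := by ring
      have h0 : 0 ≤ (t - 1) ^ 2 * (2 * t ^ 3 + 3 * t ^ 2 + 4 * t + 2) := by positivity
      linarith
    have ht0 : 0 < t := by
      rcases ht.eq_or_lt with h | h
      · exfalso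
        rw [← h] at hB'
        norm_num at hB'
        nlinarith
      · exact h
    have ht2p : 0 < t ^ 2 := by positivity
    -- general: from `κ' t² ≤ 2 - t⁴ + 2 t⁵` to `κ' a² ≤ b²`
    have key : ∀ k : ℝ, k * t ^ 2 ≤ 2 - t ^ 4 + 2 * t ^ 5 → k * a ^ 2 ≤ b ^ 2 := by
      intro k hk
      have h1 : a ^ 2 * (k * t ^ 2) ≤ b ^ 2 * t ^ 2 :=
        (mul_le_mul_of_nonneg_left hk (by positivity)).trans hB'
      have h2 : (k * a ^ 2) * t ^ 2 ≤ b ^ 2 * t ^ 2 := by linarith
      exact le_of_mul_le_mul_right h2 ht2p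
    -- from `k a² ≤ b²`, `s² ≤ k` to `s a ≤ b`
    have key2 : ∀ k s : ℝ, 0 ≤ s → s ^ 2 ≤ k → k * a ^ 2 ≤ b ^ 2 → s * a ≤ b := by
      intro k s hs hsk hk
      have h1 : (s * a) ^ 2 ≤ b ^ 2 := by
        calc (s * a) ^ 2 = s ^ 2 * a ^ 2 := by ring
          _ ≤ k * a ^ 2 := mul_le_mul_of_nonneg_right hsk (by positivity)
          _ ≤ b ^ 2 := hk
      exact (pow_le_pow_iff_left₀ (mul_nonneg hs ha) hb (by norm_num)).1 h1
    have h3 : 1.73205 * a ≤ b := key2 3 1.73205 (by norm_num) (by norm_num) (key 3 hfac)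
    rcases le_total t 1 with ht1 | ht1
    · -- B1
      have hb0 : 3.218 ≤ b := by nlinarith
      have htt : t ^ 2 ≤ 1 := by
        have := pow_le_pow_left₀ ht ht1 2
        simpa using this
      obtain ⟨h1, h2⟩ := core (a := a) (b := b) (t := t) (κ := 1 / 1.73205) (τ := 1) (b0 := 3.218)
        ha (by norm_num) hb0 (by norm_num) (by norm_num) (by norm_num) (by
          rw [div_mul_eq_mul_div, le_div_iff₀ (by norm_num)]; linarith) htt (by norm_num)
        (by norm_num)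
      exact ⟨by linarith, by linarith, h1, h2⟩
    · rcases le_total (t ^ 2) 1.35 with htt | htt
      · -- B2
        have ha13 : 13 ≤ a ^ 4 := by
          have h5 : 1 ≤ t ^ 4 := one_le_pow₀ ht1
          nlinarith
        have ha1 : 1.8988 ≤ a := by
          by_contra hc
          push Not at hc
          have := pow_lt_pow_left₀ hc ha (by norm_num : (4:ℕ) ≠ 0)
          norm_num at this
          linarith
        have hb0 : 3.2888 ≤ b := by nlinarith
        obtain ⟨h1, h2⟩ := core (a := a) (b := b) (t := t) (κ := 1 / 1.73205) (τ := 1.35)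
          (b0 := 3.2888)
          ha (by norm_num) hb0 (by norm_num) (by norm_num) (by norm_num) (by
            rw [div_mul_eq_mul_div, le_div_iff₀ (by norm_num)]; linarith) htt (by norm_num)
          (by norm_num)
        exact ⟨by linarith, by linarith, h1, h2⟩
      · -- B3
        have ht1' : 1.1618 ≤ t := by
          by_contra hc
          push Not at hc
          have := pow_lt_pow_left₀ hc ht (by norm_num : (2:ℕ) ≠ 0)
          norm_num at this
          linarith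
        have ht4 : 1.8225 ≤ t ^ 4 := by
          have := pow_le_pow_left₀ (by norm_num : (0:ℝ) ≤ 1.35) htt 2
          norm_num at this
          calc (1.8225 : ℝ) ≤ (t ^ 2) ^ 2 := by norm_num; exact this
            _ = t ^ 4 := by ring
        have ha15 : 15 ≤ a ^ 4 := by
          have h5 : 1.8225 * (4 * 1.1618 - 3) ≤ t ^ 4 * (4 * t - 3) :=
            mul_le_mul ht4 (by linarith) (by norm_num) (by positivity)
          norm_num at h5
          nlinarith
        have ha1 : 1.967 ≤ a := by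
          by_contra hc
          push Not at hc
          have := pow_lt_pow_left₀ hc ha (by norm_num : (4:ℕ) ≠ 0)
          norm_num at this
          linarith
        have hk : 3.26 * t ^ 2 ≤ 2 - t ^ 4 + 2 * t ^ 5 := by
          nlinarith [mul_nonneg (sub_nonneg.2 ht1') (sub_nonneg.2 ht4),
            mul_nonneg (sub_nonneg.2 ht1') (sub_nonneg.2 ht1'), pow_pos ht0 3, pow_pos ht0 4,
            mul_nonneg (sub_nonneg.2 htt) (sub_nonneg.2 htt)]
        have hs : 1.8055 * a ≤ b := key2 3.26 1.8055 (by norm_num) (by norm_num) (key 3.26 hk)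
        have hb0 : 3.55 ≤ b := by nlinarith
        have ha2 : a ≤ 2.484 := by nlinarith
        have ha38 : a ^ 4 ≤ 38.1 := by
          have := pow_le_pow_left₀ ha ha2 4
          norm_num at this
          linarith
        have ht27 : t ^ 2 ≤ 2.72 := by
          by_contra hc
          push Not at hc
          have h1 : 1.649 < t := by
            by_contra hd
            push Not at hd
            have := pow_le_pow_left₀ ht hd 2
            norm_num at this
            linarith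
          have h2 : (2.72 : ℝ) ^ 2 < t ^ 4 := by
            have := pow_lt_pow_left₀ hc (by norm_num) (by norm_num : (2:ℕ) ≠ 0)
            calc (2.72 : ℝ) ^ 2 < (t ^ 2) ^ 2 := this
              _ = t ^ 4 := by ring
          have h3 : 4 * t ^ 5 - 3 * t ^ 4 = t ^ 4 * (4 * t - 3) := by ring
          have h5 : (2.72 : ℝ) ^ 2 * (4 * 1.649 - 3) < t ^ 4 * (4 * t - 3) := by
            apply mul_lt_mul h2 (by linarith) (by norm_num) (by positivity)
          norm_num at h5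
          linarith
        obtain ⟨h1, h2⟩ := core (a := a) (b := b) (t := t) (κ := 1 / 1.8055) (τ := 2.72)
          (b0 := 3.55)
          ha (by norm_num) hb0 (by norm_num) (by norm_num) (by norm_num) (by
            rw [div_mul_eq_mul_div, le_div_iff₀ (by norm_num)]; linarith) ht27 (by norm_num)
          (by norm_num)
        exact ⟨by linarith, by linarith, h1, h2⟩

end Pool.Agent.PT51.S40
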