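import Mathlib

/-!
# PT51/RealS62: proof of the real inequality
-/

set_option autoImplicit false

namespace Pool.Agent.PT51

lemma core62 {a b t α τ : ℝ} (ha : 0 ≤ a) (hb : 0 ≤ b) (hα : a ≤ α * b) (hτ : t ^ 2 ≤ τ)
    (hpos : 0 < 2 * b ^ 2 - α * b * (b + 2))
    (hmain : τ * (b + 2) ^ 2 + 8 * (α * b) * (b + 2) + 4 * (α * b) ^ 2 <
      (2 * b ^ 2 - α * b * (b + 2)) ^ 2) :
    a * (b + 2) < 2 * b ^ 2 ∧
      t ^ 2 * (b + 2) ^ 2 + 8 * a * (b + 2) + 4 * a ^ 2 < (2 * b ^ 2 - a * (b + 2)) ^ 2 := by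
  have h1 : a * (b + 2) ≤ α * b * (b + 2) := mul_le_mul_of_nonneg_right hα (by linarith)
  have h2 : t ^ 2 * (b + 2) ^ 2 ≤ τ * (b + 2) ^ 2 := mul_le_mul_of_nonneg_right hτ (by positivity)
  have h3 : a ^ 2 ≤ (α * b) ^ 2 := pow_le_pow_left₀ ha hα 2
  have h4 : (2 * b ^ 2 - α * b * (b + 2)) ^ 2 ≤ (2 * b ^ 2 - a * (b + 2)) ^ 2 :=
    pow_le_pow_left₀ hpos.le (by linarith) 2
  refine ⟨by linarith, ?_⟩
  linarith

lemma le_of_pow4 {u a : ℝ} (ha : 0 ≤ a) {c : ℝ} (hc : u ^ 4 ≤ c) (h : c ≤ a ^ 4) : u ≤ a := by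
  by_contra h1
  push Not at h1
  have h2 : a ^ 4 < u ^ 4 := pow_lt_pow_left₀ h1 ha (by norm_num)
  linarith

lemma real_main62 {a b t x : ℝ} (ha : 0 ≤ a) (hb : 0 ≤ b) (ht : 0 ≤ t)
    (h4 : a ^ 4 = 16 - 8 * x + t ^ 4) (hE : 2 * x ≤ 1 + t ^ 4 - t ^ 5) (hba : b ≤ a + 2)
    (hA : a ^ 4 ≤ b ^ 2 ∨ a ^ 2 * (4 - 4 * x + t ^ 4) ≤ b ^ 2 * t ^ 2) :
    3 < b ∧ a ≤ b ∧ a * (b + 2) < 2 * b ^ 2 ∧
      t ^ 2 * (b + 2) ^ 2 + 8 * a * (b + 2) + 4 * a ^ 2 < (2 * b ^ 2 - a * (b + 2)) ^ 2 := by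
  have f1 : 12 - 3 * t ^ 4 + 4 * t ^ 5 ≤ a ^ 4 := by linarith
  have f0 : -(243 / 3125 : ℝ) ≤ 4 * t ^ 5 - 3 * t ^ 4 := by
    have h : 0 ≤ (t - 3 / 5) ^ 2 * (4 * t ^ 3 + 9 / 5 * t ^ 2 + 18 / 25 * t + 27 / 125) := by
      positivity
    nlinarith [h]
  have f2 : (11.922 : ℝ) ≤ a ^ 4 := by norm_num at f0 ⊢; linarith
  have f3 : (1.858 : ℝ) ≤ a := le_of_pow4 ha (by norm_num) f2
  rcases hA with hA | hB
  · -- case A
    have a1 : a ^ 2 ≤ b := by
      have h : (a ^ 2) ^ 2 ≤ b ^ 2 := by linarith [show (a ^ 2) ^ 2 = a ^ 4 by ring]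
      exact (pow_le_pow_iff_left₀ (by positivity) hb (by norm_num)).1 h
    have a2 : a ≤ 2 := by nlinarith
    have a3 : a ^ 4 ≤ 16 := by
      have := pow_le_pow_left₀ ha a2 4
      linarith
    have a4 : 4 * t ^ 5 - 3 * t ^ 4 ≤ 4 := by linarith
    have a5 : t ≤ 1.2247 := by
      by_contra h
      push Not at h
      obtain ⟨s, hs⟩ : ∃ s : ℝ, s = t - 1.2247 := ⟨_, rfl⟩
      have hs0 : 0 < s := by rw [hs]; linarith
      have e : t = 1.2247 + s := by rw [hs]; ring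
      rw [e] at a4
      have : 0 < s ^ 5 := by positivity
      have : 0 < s ^ 4 := by positivity
      have : 0 < s ^ 3 := by positivity
      have : 0 < s ^ 2 := by positivity
      nlinarith
    have a6 : t ^ 2 ≤ 1.5 := by nlinarith
    have a7 : (3.4521 : ℝ) ≤ b := by nlinarith
    obtain ⟨s, hs⟩ : ∃ s : ℝ, s = b - 3.4521 := ⟨_, rfl⟩
    have hs0 : 0 ≤ s := by rw [hs]; linarith
    have e : b = 3.4521 + s := by rw [hs]; ring
    have hα : a ≤ (0.57936 : ℝ) * b := by linarith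
    have := core62 (α := 0.57936) (τ := 1.5) ha hb hα a6
      (by rw [e]; ring_nf; positivity) (by
        rw [e, ← sub_pos]; ring_nf; positivity)
    exact ⟨by linarith, by linarith, this.1, this.2⟩
  · have b1 : 2 - t ^ 4 + 2 * t ^ 5 ≤ 4 - 4 * x + t ^ 4 := by linarith
    have b2 : a ^ 2 * (2 - t ^ 4 + 2 * t ^ 5) ≤ b ^ 2 * t ^ 2 :=
      (mul_le_mul_of_nonneg_left b1 (by positivity)).trans hB
    have b3 : 3 * t ^ 2 ≤ 2 - t ^ 4 + 2 * t ^ 5 := by
      have h : 0 ≤ (t - 1) ^ 2 * (2 * t ^ 3 + 3 * t ^ 2 + 4 * t + 2) := by positivity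
      nlinarith [h]
    have ht0 : 0 < t := by
      rcases ht.lt_or_eq with h | h
      · exact h
      · exfalso
        rw [← h] at b2
        nlinarith
    have b4 : 3 * a ^ 2 ≤ b ^ 2 := by
      have h : 3 * a ^ 2 * t ^ 2 ≤ b ^ 2 * t ^ 2 := by
        have := mul_le_mul_of_nonneg_left b3 (by positivity : (0 : ℝ) ≤ a ^ 2)
        linarith
      exact le_of_mul_le_mul_right h (by positivity)
    have b5 : a ≤ 0.57736 * b := by
      have h : a ^ 2 ≤ (0.57736 * b) ^ 2 := by nlinarith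
      exact (pow_le_pow_iff_left₀ ha (by positivity) (by norm_num)).1 h
    rcases le_total t 1 with t1 | t1
    · -- B1
      have a7 : (3.218 : ℝ) ≤ b := by nlinarith
      obtain ⟨s, hs⟩ : ∃ s : ℝ, s = b - 3.218 := ⟨_, rfl⟩
      have hs0 : 0 ≤ s := by rw [hs]; linarith
      have e : b = 3.218 + s := by rw [hs]; ring
      have := core62 (α := 0.57736) (τ := 1) ha hb b5 (by nlinarith : t ^ 2 ≤ 1)
        (by rw [e]; ring_nf; positivity) (by
          rw [e, ← sub_pos]; ring_nf; positivity)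
      exact ⟨by linarith, by linarith, this.1, this.2⟩
    · rcases le_total (t ^ 2) 1.35 with t2 | t2
      · -- B2
        have c1 : (13 : ℝ) ≤ a ^ 4 := by
          have h : 1 ≤ 4 * t ^ 5 - 3 * t ^ 4 := by
            obtain ⟨s, hs⟩ : ∃ s : ℝ, s = t - 1 := ⟨_, rfl⟩
            have hs0 : 0 ≤ s := by rw [hs]; linarith
            have e : t = 1 + s := by rw [hs]; ring
            rw [e, ← sub_nonneg]; ring_nf; positivity
          linarith
        have c2 : (1.8988 : ℝ) ≤ a := le_of_pow4 ha (by norm_num) c1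
        have a7 : (3.2888 : ℝ) ≤ b := by nlinarith
        obtain ⟨s, hs⟩ : ∃ s : ℝ, s = b - 3.2888 := ⟨_, rfl⟩
        have hs0 : 0 ≤ s := by rw [hs]; linarith
        have e : b = 3.2888 + s := by rw [hs]; ring
        have := core62 (α := 0.57736) (τ := 1.35) ha hb b5 t2
          (by rw [e]; ring_nf; positivity) (by
            rw [e, ← sub_pos]; ring_nf; positivity)
        exact ⟨by linarith, by linarith, this.1, this.2⟩
      · -- B3
        have d0 : (1.1618 : ℝ) ≤ t := by nlinarith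
        obtain ⟨s, hs⟩ : ∃ s : ℝ, s = t - 1.1618 := ⟨_, rfl⟩
        have hs0 : 0 ≤ s := by rw [hs]; linarith
        have e : t = 1.1618 + s := by rw [hs]; ring
        have d1 : (2.97 : ℝ) ≤ 4 * t ^ 5 - 3 * t ^ 4 := by
          rw [e, ← sub_nonneg]; ring_nf; positivity
        have d2 : (1.965 : ℝ) ≤ a := le_of_pow4 (c := 14.97) ha (by norm_num) (by linarith)
        have d3 : 3.26 * t ^ 2 ≤ 2 - t ^ 4 + 2 * t ^ 5 := by
          rw [e, ← sub_nonneg]; ring_nf; positivity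
        have d4 : 3.26 * a ^ 2 ≤ b ^ 2 := by
          have h : 3.26 * a ^ 2 * t ^ 2 ≤ b ^ 2 * t ^ 2 := by
            have := mul_le_mul_of_nonneg_left d3 (by positivity : (0 : ℝ) ≤ a ^ 2)
            linarith
          exact le_of_mul_le_mul_right h (by positivity)
        have d5 : a ≤ 0.554 * b := by
          have h : a ^ 2 ≤ (0.554 * b) ^ 2 := by nlinarith
          exact (pow_le_pow_iff_left₀ ha (by positivity) (by norm_num)).1 h
        have d6 : a ≤ 2.4844 := by linarith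
        have d7 : a ^ 4 ≤ 38.1 := by
          have := pow_le_pow_left₀ ha d6 4
          norm_num at this ⊢
          linarith
        have d8 : t ≤ 1.65 := by
          by_contra h
          push Not at h
          obtain ⟨r, hr⟩ : ∃ r : ℝ, r = t - 1.65 := ⟨_, rfl⟩
          have hr0 : 0 < r := by rw [hr]; linarith
          have e' : t = 1.65 + r := by rw [hr]; ring
          have : (26.2 : ℝ) ≤ 4 * t ^ 5 - 3 * t ^ 4 := by
            rw [e', ← sub_nonneg]; ring_nf; positivity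
          linarith
        have d9 : t ^ 2 ≤ 2.7225 := by nlinarith
        have a7 : (3.54 : ℝ) ≤ b := by linarith
        obtain ⟨r, hr⟩ : ∃ r : ℝ, r = b - 3.54 := ⟨_, rfl⟩
        have hr0 : 0 ≤ r := by rw [hr]; linarith
        have e' : b = 3.54 + r := by rw [hr]; ring
        have := core62 (α := 0.554) (τ := 2.7225) ha hb d5 d9
          (by rw [e']; ring_nf; positivity) (by
            rw [e', ← sub_pos]; ring_nf; positivity)
        exact ⟨by linarith, by linarith, this.1, this.2⟩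

end Pool.Agent.PT51
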