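import Mathlib

/-!
# PT51/RealS69: the real inequality of `PT51/Real`, all four cases
-/

set_option autoImplicit false

namespace Pool.Agent.PT51.RealS69

theorem fin_step {a b t T K : ℝ} (ha : 0 ≤ a) (hb : 0 ≤ b) (hK : a ≤ K) (hT : t ^ 2 ≤ T)
    (hpos : K * (b + 2) < 2 * b ^ 2)
    (h : T * (b + 2) ^ 2 + 8 * K * (b + 2) + 4 * K ^ 2 < (2 * b ^ 2 - K * (b + 2)) ^ 2) :
    a * (b + 2) < 2 * b ^ 2 ∧
      t ^ 2 * (b + 2) ^ 2 + 8 * a * (b + 2) + 4 * a ^ 2 < (2 * b ^ 2 - a * (b + 2)) ^ 2 := by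
  have h1 : a * (b + 2) ≤ K * (b + 2) := mul_le_mul_of_nonneg_right hK (by linarith)
  have h2 : t ^ 2 * (b + 2) ^ 2 ≤ T * (b + 2) ^ 2 := mul_le_mul_of_nonneg_right hT (sq_nonneg _)
  have h3 : a ^ 2 ≤ K ^ 2 := pow_le_pow_left₀ ha hK 2
  have h4 : (2 * b ^ 2 - K * (b + 2)) ^ 2 ≤ (2 * b ^ 2 - a * (b + 2)) ^ 2 :=
    pow_le_pow_left₀ (by linarith) (by linarith) 2
  refine ⟨by linarith, ?_⟩
  have h5 : 8 * a * (b + 2) ≤ 8 * K * (b + 2) := by nlinarith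
  linarith

theorem tmin {t : ℝ} (ht : 0 ≤ t) : -0.07776 ≤ 4 * t ^ 5 - 3 * t ^ 4 := by
  have h : 4 * t ^ 5 - 3 * t ^ 4 + 0.07776 =
      (t - 3 / 5) ^ 2 * (4 * t ^ 3 + 1.8 * t ^ 2 + 0.72 * t + 0.216) := by ring
  have h2 : 0 ≤ (t - 3 / 5) ^ 2 * (4 * t ^ 3 + 1.8 * t ^ 2 + 0.72 * t + 0.216) := by positivity
  linarith

theorem tquot {t : ℝ} (ht : 0 ≤ t) : 3 * t ^ 2 ≤ 2 - t ^ 4 + 2 * t ^ 5 := by
  have h : 2 - t ^ 4 + 2 * t ^ 5 - 3 * t ^ 2 =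
      (t - 1) ^ 2 * (2 * t ^ 3 + 3 * t ^ 2 + 4 * t + 2) := by ring
  have h2 : 0 ≤ (t - 1) ^ 2 * (2 * t ^ 3 + 3 * t ^ 2 + 4 * t + 2) := by positivity
  linarith

/-- `t ^ 4 * (4 * t - 3)` is increasing beyond `3 / 4`. -/
theorem tmono {t s : ℝ} (hs : 3 / 4 ≤ s) (hst : s ≤ t) :
    s ^ 4 * (4 * s - 3) ≤ 4 * t ^ 5 - 3 * t ^ 4 := by
  have h1 : s ^ 4 ≤ t ^ 4 := pow_le_pow_left₀ (by linarith) hst 4
  have h2 : s ^ 4 * (4 * s - 3) ≤ t ^ 4 * (4 * t - 3) :=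
    mul_le_mul h1 (by linarith) (by linarith) (by positivity)
  calc _ ≤ _ := h2
    _ = _ := by ring

theorem lower {b L : ℝ} (hb : 0 ≤ b) (h : L ^ 4 ≤ b ^ 4) : L ≤ b := by
  by_contra hc
  have := pow_lt_pow_left₀ (not_le.1 hc) hb (n := 4) (by norm_num)
  linarith

theorem case_a {a b t : ℝ} (ha : 0 ≤ a) (hb : 0 ≤ b) (ht : 0 ≤ t)
    (hT : 12 - 3 * t ^ 4 + 4 * t ^ 5 ≤ a ^ 4) (hba : b ≤ a + 2)
    (hA : a ^ 4 ≤ b ^ 2) :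
    3 < b ∧ a ≤ b ∧ a * (b + 2) < 2 * b ^ 2 ∧
      t ^ 2 * (b + 2) ^ 2 + 8 * a * (b + 2) + 4 * a ^ 2 < (2 * b ^ 2 - a * (b + 2)) ^ 2 := by
  have h1 := tmin ht
  have h2 : a ^ 2 ≤ b := by
    refine (sq_le_sq₀ (sq_nonneg a) hb).1 ?_
    rw [← pow_mul]
    exact hA
  have h3 : a ≤ 2 := by nlinarith
  have h4 : 345 / 100 ≤ b := by
    by_contra hc
    push Not at hc
    nlinarith
  have h5 : t ≤ 122475 / 100000 := by
    by_contra hc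
    push Not at hc
    have h6 := tmono (s := 122475 / 100000) (by norm_num) hc.le
    have h7 : a ^ 4 ≤ 2 ^ 4 := pow_le_pow_left₀ ha h3 4
    norm_num at h6 h7
    linarith
  have h8 : t ^ 2 ≤ 1.501 := by
    have := pow_le_pow_left₀ ht h5 2
    norm_num at this ⊢
    linarith
  obtain ⟨y, hy, rfl⟩ : ∃ y : ℝ, 0 ≤ y ∧ b = 345 / 100 + y := ⟨b - 345 / 100, by linarith, by ring⟩
  refine ⟨by linarith, by linarith, fin_step ha hb h3 h8 ?_ ?_⟩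
  · rw [← sub_pos]
    ring_nf
    positivity
  · rw [← sub_pos]
    ring_nf
    positivity

/-- The last step of Case B: `a ≤ q b`, `L ≤ b`, `t ^ 2 ≤ T`. -/
theorem case_b1 {a b t : ℝ} (ha : 0 ≤ a) (hb : 0 ≤ b) (ht1 : t ≤ 1) (ht : 0 ≤ t)
    (h4 : 11.92 ≤ a ^ 4) (hq : 3 * a ^ 2 ≤ b ^ 2) :
    3 < b ∧ a ≤ b ∧ a * (b + 2) < 2 * b ^ 2 ∧
      t ^ 2 * (b + 2) ^ 2 + 8 * a * (b + 2) + 4 * a ^ 2 < (2 * b ^ 2 - a * (b + 2)) ^ 2 := by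
  have h5 : (3 * a ^ 2) ^ 2 ≤ (b ^ 2) ^ 2 := pow_le_pow_left₀ (by positivity) hq 2
  have h6 : 3218 / 1000 ≤ b := lower hb (by norm_num at h4 ⊢; nlinarith)
  have h7 : a ≤ 5774 / 10000 * b := by
    refine (sq_le_sq₀ ha (by positivity)).1 ?_
    rw [mul_pow]
    norm_num
    nlinarith [sq_nonneg b]
  have h8 : t ^ 2 ≤ 1 := by nlinarith
  obtain ⟨y, hy, rfl⟩ : ∃ y : ℝ, 0 ≤ y ∧ b = 3218 / 1000 + y :=
    ⟨b - 3218 / 1000, by linarith, by ring⟩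
  refine ⟨by linarith, by linarith, fin_step ha hb h7 h8 ?_ ?_⟩
  · rw [← sub_pos]
    ring_nf
    positivity
  · rw [← sub_pos]
    ring_nf
    positivity

theorem case_b2 {a b t : ℝ} (ha : 0 ≤ a) (hb : 0 ≤ b) (h8 : t ^ 2 ≤ 135 / 100)
    (h4 : 13 ≤ a ^ 4) (hq : 3 * a ^ 2 ≤ b ^ 2) :
    3 < b ∧ a ≤ b ∧ a * (b + 2) < 2 * b ^ 2 ∧
      t ^ 2 * (b + 2) ^ 2 + 8 * a * (b + 2) + 4 * a ^ 2 < (2 * b ^ 2 - a * (b + 2)) ^ 2 := by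
  have h5 : (3 * a ^ 2) ^ 2 ≤ (b ^ 2) ^ 2 := pow_le_pow_left₀ (by positivity) hq 2
  have h6 : 3288 / 1000 ≤ b := lower hb (by norm_num at h4 ⊢; nlinarith)
  have h7 : a ≤ 5774 / 10000 * b := by
    refine (sq_le_sq₀ ha (by positivity)).1 ?_
    rw [mul_pow]
    norm_num
    nlinarith [sq_nonneg b]
  obtain ⟨y, hy, rfl⟩ : ∃ y : ℝ, 0 ≤ y ∧ b = 3288 / 1000 + y :=
    ⟨b - 3288 / 1000, by linarith, by ring⟩
  refine ⟨by linarith, by linarith, fin_step ha hb h7 h8 ?_ ?_⟩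
  · rw [← sub_pos]
    ring_nf
    positivity
  · rw [← sub_pos]
    ring_nf
    positivity

theorem case_b3 {a b t : ℝ} (ha : 0 ≤ a) (hb : 0 ≤ b) (h8 : t ^ 2 ≤ 270 / 100)
    (h4 : 15 ≤ a ^ 4) (hq : 326 / 100 * a ^ 2 ≤ b ^ 2) :
    3 < b ∧ a ≤ b ∧ a * (b + 2) < 2 * b ^ 2 ∧
      t ^ 2 * (b + 2) ^ 2 + 8 * a * (b + 2) + 4 * a ^ 2 < (2 * b ^ 2 - a * (b + 2)) ^ 2 := by
  have h5 : (326 / 100 * a ^ 2) ^ 2 ≤ (b ^ 2) ^ 2 := pow_le_pow_left₀ (by positivity) hq 2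
  have h6 : 3552 / 1000 ≤ b := lower hb (by norm_num at h4 ⊢; nlinarith)
  have h7 : a ≤ 554 / 1000 * b := by
    refine (sq_le_sq₀ ha (by positivity)).1 ?_
    rw [mul_pow]
    norm_num
    nlinarith [sq_nonneg b]
  obtain ⟨y, hy, rfl⟩ : ∃ y : ℝ, 0 ≤ y ∧ b = 3552 / 1000 + y :=
    ⟨b - 3552 / 1000, by linarith, by ring⟩
  refine ⟨by linarith, by linarith, fin_step ha hb h7 h8 ?_ ?_⟩
  · rw [← sub_pos]
    ring_nf
    positivity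
  · rw [← sub_pos]
    ring_nf
    positivity

/-- The increasing quotient `(2 - t ^ 4 + 2 * t ^ 5) / t ^ 2`, beyond `t ^ 2 = 27 / 20`. -/
theorem tquot3 {t : ℝ} (ht : 11618 / 10000 ≤ t) : 326 / 100 * t ^ 2 ≤ 2 - t ^ 4 + 2 * t ^ 5 := by
  obtain ⟨y, hy, rfl⟩ : ∃ y : ℝ, 0 ≤ y ∧ t = 11618 / 10000 + y :=
    ⟨t - 11618 / 10000, by linarith, by ring⟩
  rw [← sub_nonneg]
  ring_nf
  positivity

theorem case_b {a b t x : ℝ} (ha : 0 ≤ a) (hb : 0 ≤ b) (ht : 0 ≤ t)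
    (hT : 12 - 3 * t ^ 4 + 4 * t ^ 5 ≤ a ^ 4) (hE : 2 * x ≤ 1 + t ^ 4 - t ^ 5) (hba : b ≤ a + 2)
    (hA : a ^ 2 * (4 - 4 * x + t ^ 4) ≤ b ^ 2 * t ^ 2) :
    3 < b ∧ a ≤ b ∧ a * (b + 2) < 2 * b ^ 2 ∧
      t ^ 2 * (b + 2) ^ 2 + 8 * a * (b + 2) + 4 * a ^ 2 < (2 * b ^ 2 - a * (b + 2)) ^ 2 := by
  have h1 := tmin ht
  have h2 : 11.92 ≤ a ^ 4 := by norm_num at h1 ⊢; linarith
  have hapos : 0 < a := by
    rcases ha.eq_or_lt with h | h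
    · rw [← h] at h2
      norm_num at h2
    · exact h
  have h3 : a ^ 2 * (2 - t ^ 4 + 2 * t ^ 5) ≤ b ^ 2 * t ^ 2 :=
    (mul_le_mul_of_nonneg_left (by linarith) (sq_nonneg a)).trans hA
  have htpos : 0 < t := by
    rcases ht.eq_or_lt with h | h
    · rw [← h] at h3
      norm_num at h3
      have := pow_pos hapos 2
      linarith
    · exact h
  have ht2 : 0 < t ^ 2 := by positivity
  have h4 : 3 * a ^ 2 ≤ b ^ 2 := by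
    refine le_of_mul_le_mul_right ?_ ht2
    calc 3 * a ^ 2 * t ^ 2 = a ^ 2 * (3 * t ^ 2) := by ring
      _ ≤ a ^ 2 * (2 - t ^ 4 + 2 * t ^ 5) :=
        mul_le_mul_of_nonneg_left (tquot ht) (sq_nonneg a)
      _ ≤ _ := h3
  rcases le_total t 1 with h5 | h5
  · exact case_b1 ha hb h5 ht h2 h4
  · rcases le_total t (11618 / 10000) with h6 | h6
    · have h7 := tmono (s := 1) (by norm_num) h5
      norm_num at h7
      refine case_b2 ha hb ?_ (by linarith) h4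
      have := pow_le_pow_left₀ ht h6 2
      norm_num at this ⊢
      linarith
    · have h7 := tmono (s := 11618 / 10000) (by norm_num) h6
      norm_num at h7
      have h8 : 326 / 100 * a ^ 2 ≤ b ^ 2 := by
        refine le_of_mul_le_mul_right ?_ ht2
        calc 326 / 100 * a ^ 2 * t ^ 2 = a ^ 2 * (326 / 100 * t ^ 2) := by ring
          _ ≤ a ^ 2 * (2 - t ^ 4 + 2 * t ^ 5) :=
            mul_le_mul_of_nonneg_left (tquot3 h6) (sq_nonneg a)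
          _ ≤ _ := h3
      have h9 : a ≤ 2483 / 1000 := by
        by_contra hc
        push Not at hc
        have h10 : b ^ 2 ≤ (a + 2) ^ 2 := pow_le_pow_left₀ hb hba 2
        nlinarith
      have h10 : t ≤ 16431 / 10000 := by
        by_contra hc
        push Not at hc
        have h11 := tmono (s := 16431 / 10000) (by norm_num) hc.le
        have h12 : a ^ 4 ≤ (2483 / 1000) ^ 4 := pow_le_pow_left₀ ha h9 4
        norm_num at h11 h12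
        linarith
      refine case_b3 ha hb ?_ (by linarith) h8
      have := pow_le_pow_left₀ ht h10 2
      norm_num at this ⊢
      linarith

theorem real_main {a b t x : ℝ} (ha : 0 ≤ a) (hb : 0 ≤ b) (ht : 0 ≤ t)
    (h4 : a ^ 4 = 16 - 8 * x + t ^ 4) (hE : 2 * x ≤ 1 + t ^ 4 - t ^ 5) (hba : b ≤ a + 2)
    (hA : a ^ 4 ≤ b ^ 2 ∨ a ^ 2 * (4 - 4 * x + t ^ 4) ≤ b ^ 2 * t ^ 2) :
    3 < b ∧ a ≤ b ∧ a * (b + 2) < 2 * b ^ 2 ∧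
      t ^ 2 * (b + 2) ^ 2 + 8 * a * (b + 2) + 4 * a ^ 2 < (2 * b ^ 2 - a * (b + 2)) ^ 2 := by
  have hT : 12 - 3 * t ^ 4 + 4 * t ^ 5 ≤ a ^ 4 := by linarith
  rcases hA with hA | hA
  · exact case_a ha hb ht hT hba hA
  · exact case_b ha hb ht hT hE hba hA

end Pool.Agent.PT51.RealS69
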