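import Mathlib

/-!
# PT51/RealS96: the real inequality

See the header of `Real.lean`.
-/

set_option autoImplicit false

namespace Pool.Agent.PT51

/-- It is enough to treat the largest `a` and the largest `t ^ 2`. -/
theorem real_mono96 {a A b T t : ℝ} (ha : 0 ≤ a) (haA : a ≤ A) (hb : 0 ≤ b) (hT : t ^ 2 ≤ T)
    (h1 : 0 ≤ 2 * b ^ 2 - A * (b + 2))
    (h2 : T * (b + 2) ^ 2 + 8 * A * (b + 2) + 4 * A ^ 2 < (2 * b ^ 2 - A * (b + 2)) ^ 2) :
    t ^ 2 * (b + 2) ^ 2 + 8 * a * (b + 2) + 4 * a ^ 2 < (2 * b ^ 2 - a * (b + 2)) ^ 2 := by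
  have hb2 : 0 ≤ b + 2 := by linarith
  have e1 : a * (b + 2) ≤ A * (b + 2) := mul_le_mul_of_nonneg_right haA hb2
  have e2 : t ^ 2 * (b + 2) ^ 2 ≤ T * (b + 2) ^ 2 := mul_le_mul_of_nonneg_right hT (sq_nonneg _)
  have e3 : a ^ 2 ≤ A ^ 2 := pow_le_pow_left₀ ha haA 2
  have e4 : (2 * b ^ 2 - A * (b + 2)) ^ 2 ≤ (2 * b ^ 2 - a * (b + 2)) ^ 2 :=
    pow_le_pow_left₀ h1 (by linarith) 2
  linarith

/-- `4 t⁵ - 3 t⁴ ≥ -0.08`. -/
theorem real_low96 {t : ℝ} (ht : 0 ≤ t) : -(8 / 100) ≤ 4 * t ^ 5 - 3 * t ^ 4 := by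
  have h1 : 4 * t ^ 5 - 3 * t ^ 4 + 243 / 3125 =
      (t - 3 / 5) ^ 2 * (4 * t ^ 3 + 9 / 5 * t ^ 2 + 18 / 25 * t + 27 / 125) := by ring
  have h2 : 0 ≤ (t - 3 / 5) ^ 2 * (4 * t ^ 3 + 9 / 5 * t ^ 2 + 18 / 25 * t + 27 / 125) := by
    positivity
  linarith

theorem real_root96 {a c : ℝ} (ha : 0 ≤ a) (h : c ^ 4 < a ^ 4) : c < a := by
  by_contra hcon
  push Not at hcon
  have := pow_le_pow_left₀ ha hcon 4
  linarith

theorem real_sqr96 {a c : ℝ} (ha : 0 ≤ a) (h : c ^ 2 < a ^ 2) : c < a := by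
  by_contra hcon
  push Not at hcon
  have := pow_le_pow_left₀ ha hcon 2
  linarith

theorem real_caseA96 {a b t x : ℝ} (ha : 0 ≤ a) (hb : 0 ≤ b) (ht : 0 ≤ t)
    (h4 : a ^ 4 = 16 - 8 * x + t ^ 4) (hE : 2 * x ≤ 1 + t ^ 4 - t ^ 5) (hba : b ≤ a + 2)
    (hA : a ^ 4 ≤ b ^ 2) :
    3 < b ∧ a ≤ b ∧ a * (b + 2) < 2 * b ^ 2 ∧
      t ^ 2 * (b + 2) ^ 2 + 8 * a * (b + 2) + 4 * a ^ 2 < (2 * b ^ 2 - a * (b + 2)) ^ 2 := by
  have hl := real_low96 ht
  have h12 : (1192 / 100 : ℝ) ≤ a ^ 4 := by linarith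
  have hab : a ^ 2 ≤ b := by
    by_contra hcon
    push Not at hcon
    have : b ^ 2 < (a ^ 2) ^ 2 := pow_lt_pow_left₀ hcon hb (by norm_num)
    have e : (a ^ 2) ^ 2 = a ^ 4 := by ring
    linarith
  have ha2 : a ≤ 2 := by
    by_contra hcon
    push Not at hcon
    nlinarith
  have hb345 : (345 / 100 : ℝ) < b := by
    apply real_sqr96 hb
    have : (345 / 100 : ℝ) ^ 2 < 1192 / 100 := by norm_num
    linarith
  have ht1 : t ≤ 1224 / 1000 := by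
    by_contra hcon
    push Not at hcon
    have h16 : a ^ 4 ≤ 16 := by
      have := pow_le_pow_left₀ ha ha2 4
      norm_num at this
      linarith
    have e1 : (1224 / 1000 : ℝ) ^ 4 < t ^ 4 := pow_lt_pow_left₀ hcon (by norm_num) (by norm_num)
    have e2 : 4 * t ^ 5 - 3 * t ^ 4 = t ^ 4 * (4 * t - 3) := by ring
    have e3 : (1224 / 1000 : ℝ) ^ 4 * (4 * (1224 / 1000) - 3) ≤ t ^ 4 * (4 * t - 3) :=
      mul_le_mul e1.le (by linarith) (by norm_num) (by positivity)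
    have e4 : (4 : ℝ) < (1224 / 1000 : ℝ) ^ 4 * (4 * (1224 / 1000) - 3) := by norm_num
    linarith
  have ht2 : t ^ 2 ≤ 3 / 2 := by
    have := pow_le_pow_left₀ ht ht1 2
    norm_num at this
    linarith
  obtain ⟨s, hs, rfl⟩ : ∃ s : ℝ, 0 ≤ s ∧ b = 345 / 100 + s := ⟨b - 345 / 100, by linarith, by ring⟩
  have s2 : 0 ≤ s ^ 2 := by positivity
  have s3 : 0 ≤ s ^ 3 := by positivity
  have s4 : 0 ≤ s ^ 4 := by positivity
  refine ⟨by linarith, by linarith, ?_, ?_⟩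
  · have : a * (345 / 100 + s + 2) ≤ 2 * (345 / 100 + s + 2) :=
      mul_le_mul_of_nonneg_right ha2 (by linarith)
    nlinarith
  · refine real_mono96 ha ha2 hb ht2 ?_ ?_
    · nlinarith
    · nlinarith

theorem real_caseB96 {a b t x : ℝ} (ht : 0 ≤ t)
    (h4 : a ^ 4 = 16 - 8 * x + t ^ 4) (hE : 2 * x ≤ 1 + t ^ 4 - t ^ 5)
    (hA : a ^ 2 * (4 - 4 * x + t ^ 4) ≤ b ^ 2 * t ^ 2) :
    0 < t ∧ a ^ 2 * (2 - t ^ 4 + 2 * t ^ 5) ≤ b ^ 2 * t ^ 2 ∧ 3 * a ^ 2 ≤ b ^ 2 := by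
  have h1 : a ^ 2 * (2 - t ^ 4 + 2 * t ^ 5) ≤ b ^ 2 * t ^ 2 := by
    refine le_trans (mul_le_mul_of_nonneg_left ?_ (sq_nonneg a)) hA
    linarith
  have hl := real_low96 ht
  have h12 : (1192 / 100 : ℝ) ≤ a ^ 4 := by linarith
  have ht0 : 0 < t := by
    rcases ht.eq_or_lt with h | h
    · exfalso
      rw [← h] at h1
      norm_num at h1
      have e : a ^ 4 = a ^ 2 * a ^ 2 := by ring
      have e2 : a ^ 2 = 0 := by nlinarith [sq_nonneg a]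
      rw [e, e2] at h12
      norm_num at h12
    · exact h
  refine ⟨ht0, h1, ?_⟩
  have h3 : 3 * t ^ 2 ≤ 2 - t ^ 4 + 2 * t ^ 5 := by
    have e1 : 2 * t ^ 5 - t ^ 4 - 3 * t ^ 2 + 2 = (t - 1) ^ 2 * (2 * t ^ 3 + 3 * t ^ 2 + 4 * t + 2) := by
      ring
    have e2 : 0 ≤ (t - 1) ^ 2 * (2 * t ^ 3 + 3 * t ^ 2 + 4 * t + 2) := by positivity
    linarith
  have h5 : a ^ 2 * (3 * t ^ 2) ≤ b ^ 2 * t ^ 2 :=
    (mul_le_mul_of_nonneg_left h3 (sq_nonneg a)).trans h1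
  have h6 : (3 * a ^ 2) * t ^ 2 ≤ b ^ 2 * t ^ 2 := by linarith
  exact le_of_mul_le_mul_right h6 (by positivity)

/-- Cases B1 and B2. -/
theorem real_B12_96 {a b t T b0 : ℝ} (ha : 0 ≤ a) (hb : 0 ≤ b) (h3 : 3 * a ^ 2 ≤ b ^ 2)
    (hT : t ^ 2 ≤ T) (hb0 : b0 < b) (hb3 : 3 < b0)
    (hpoly : ∀ s : ℝ, 0 ≤ s → T * (b0 + s + 2) ^ 2 + 8 * (5774 / 10000 * (b0 + s)) * (b0 + s + 2) +
      4 * (5774 / 10000 * (b0 + s)) ^ 2 <
      (2 * (b0 + s) ^ 2 - (5774 / 10000 * (b0 + s)) * (b0 + s + 2)) ^ 2) :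
    3 < b ∧ a ≤ b ∧ a * (b + 2) < 2 * b ^ 2 ∧
      t ^ 2 * (b + 2) ^ 2 + 8 * a * (b + 2) + 4 * a ^ 2 < (2 * b ^ 2 - a * (b + 2)) ^ 2 := by
  have hab : a ≤ 5774 / 10000 * b := by
    by_contra hcon
    push Not at hcon
    have e1 : (5774 / 10000 * b) ^ 2 < a ^ 2 := pow_lt_pow_left₀ hcon (by positivity) (by norm_num)
    nlinarith
  have hb3' : 3 < b := by linarith
  have key : 5774 / 10000 * b * (b + 2) < 2 * b ^ 2 := by nlinarith
  refine ⟨hb3', by linarith, ?_, ?_⟩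
  · exact lt_of_le_of_lt (mul_le_mul_of_nonneg_right hab (by linarith)) key
  · refine real_mono96 ha hab hb hT (by linarith) ?_
    have := hpoly (b - b0) (by linarith)
    have e : b0 + (b - b0) = b := by ring
    rw [e] at this
    exact this

theorem real_main96 {a b t x : ℝ} (ha : 0 ≤ a) (hb : 0 ≤ b) (ht : 0 ≤ t)
    (h4 : a ^ 4 = 16 - 8 * x + t ^ 4) (hE : 2 * x ≤ 1 + t ^ 4 - t ^ 5) (hba : b ≤ a + 2)
    (hA : a ^ 4 ≤ b ^ 2 ∨ a ^ 2 * (4 - 4 * x + t ^ 4) ≤ b ^ 2 * t ^ 2) :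
    3 < b ∧ a ≤ b ∧ a * (b + 2) < 2 * b ^ 2 ∧
      t ^ 2 * (b + 2) ^ 2 + 8 * a * (b + 2) + 4 * a ^ 2 < (2 * b ^ 2 - a * (b + 2)) ^ 2 := by
  rcases hA with hA | hA
  · exact real_caseA96 ha hb ht h4 hE hba hA
  obtain ⟨ht0, h1, h3⟩ := real_caseB96 ht h4 hE hA
  have hlow : 12 + (4 * t ^ 5 - 3 * t ^ 4) ≤ a ^ 4 := by linarith
  rcases le_total t 1 with ht1 | ht1
  · -- B1
    have hl := real_low96 ht
    have ha1 : (1858 / 1000 : ℝ) < a := real_root96 ha (by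
      have : (1858 / 1000 : ℝ) ^ 4 < 1192 / 100 := by norm_num
      linarith)
    have hb1 : (3218 / 1000 : ℝ) < b := real_sqr96 hb (by
      have e1 : (1858 / 1000 : ℝ) ^ 2 < a ^ 2 := pow_lt_pow_left₀ ha1 (by norm_num) (by norm_num)
      have e2 : (3218 / 1000 : ℝ) ^ 2 < 3 * (1858 / 1000) ^ 2 := by norm_num
      linarith)
    have hT : t ^ 2 ≤ 1 := by
      have := pow_le_pow_left₀ ht ht1 2
      linarith
    refine real_B12_96 ha hb h3 hT hb1 (by norm_num) ?_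
    intro s hs
    have s2 : 0 ≤ s ^ 2 := by positivity
    have s3 : 0 ≤ s ^ 3 := by positivity
    have s4 : 0 ≤ s ^ 4 := by positivity
    nlinarith
  rcases le_total (t ^ 2) (135 / 100) with ht2 | ht2
  · -- B2
    have e0 : (1 : ℝ) ≤ 4 * t ^ 5 - 3 * t ^ 4 := by
      have e1 : (1 : ℝ) ≤ t ^ 4 := one_le_pow₀ ht1
      have e2 : 4 * t ^ 5 - 3 * t ^ 4 = t ^ 4 * (4 * t - 3) := by ring
      rw [e2]
      nlinarith
    have ha1 : (1898 / 1000 : ℝ) < a := real_root96 ha (by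
      have : (1898 / 1000 : ℝ) ^ 4 < 13 := by norm_num
      linarith)
    have hb1 : (3287 / 1000 : ℝ) < b := real_sqr96 hb (by
      have e1 : (1898 / 1000 : ℝ) ^ 2 < a ^ 2 := pow_lt_pow_left₀ ha1 (by norm_num) (by norm_num)
      have e2 : (3287 / 1000 : ℝ) ^ 2 < 3 * (1898 / 1000) ^ 2 := by norm_num
      linarith)
    refine real_B12_96 ha hb h3 ht2 hb1 (by norm_num) ?_
    intro s hs
    have s2 : 0 ≤ s ^ 2 := by positivity
    have s3 : 0 ≤ s ^ 3 := by positivity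
    have s4 : 0 ≤ s ^ 4 := by positivity
    nlinarith
  · -- B3
    have ht116 : (116 / 100 : ℝ) < t := real_sqr96 ht (by
      have : (116 / 100 : ℝ) ^ 2 < 135 / 100 := by norm_num
      linarith)
    have ht1161 : (1161 / 1000 : ℝ) < t := real_sqr96 ht (by
      have : (1161 / 1000 : ℝ) ^ 2 < 135 / 100 := by norm_num
      linarith)
    have ha1 : (1965 / 1000 : ℝ) < a := real_root96 ha (by
      have e1 : (1161 / 1000 : ℝ) ^ 4 < t ^ 4 := pow_lt_pow_left₀ ht1161 (by norm_num) (by norm_num)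
      have e2 : 4 * t ^ 5 - 3 * t ^ 4 = t ^ 4 * (4 * t - 3) := by ring
      have e3 : (1161 / 1000 : ℝ) ^ 4 * (4 * (1161 / 1000) - 3) ≤ t ^ 4 * (4 * t - 3) :=
        mul_le_mul e1.le (by linarith) (by norm_num) (by positivity)
      have e4 : (1965 / 1000 : ℝ) ^ 4 < 12 + (1161 / 1000 : ℝ) ^ 4 * (4 * (1161 / 1000) - 3) := by
        norm_num
      linarith)
    have hm : 326 / 100 * t ^ 2 ≤ 2 - t ^ 4 + 2 * t ^ 5 := by
      obtain ⟨s, hs, rfl⟩ : ∃ s : ℝ, 0 ≤ s ∧ t = 116 / 100 + s :=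
        ⟨t - 116 / 100, by linarith, by ring⟩
      have s2 : 0 ≤ s ^ 2 := by positivity
      have s3 : 0 ≤ s ^ 3 := by positivity
      have s4 : 0 ≤ s ^ 4 := by positivity
      have s5 : 0 ≤ s ^ 5 := by positivity
      nlinarith
    have h326 : 326 / 100 * a ^ 2 ≤ b ^ 2 := by
      have h5 : a ^ 2 * (326 / 100 * t ^ 2) ≤ b ^ 2 * t ^ 2 :=
        (mul_le_mul_of_nonneg_left hm (sq_nonneg a)).trans h1
      have h6 : (326 / 100 * a ^ 2) * t ^ 2 ≤ b ^ 2 * t ^ 2 := by linarith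
      exact le_of_mul_le_mul_right h6 (by positivity)
    have hab : a ≤ 554 / 1000 * b := by
      by_contra hcon
      push Not at hcon
      have e1 : (554 / 1000 * b) ^ 2 < a ^ 2 := pow_lt_pow_left₀ hcon (by positivity) (by norm_num)
      nlinarith
    have hb1 : (354 / 100 : ℝ) < b := real_sqr96 hb (by
      have e1 : (1965 / 1000 : ℝ) ^ 2 < a ^ 2 := pow_lt_pow_left₀ ha1 (by norm_num) (by norm_num)
      have e2 : (354 / 100 : ℝ) ^ 2 < 326 / 100 * (1965 / 1000) ^ 2 := by norm_num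
      linarith)
    have hb2 : a ≤ 249 / 100 := by
      by_contra hcon
      push Not at hcon
      nlinarith
    have ht3 : t ≤ 167 / 100 := by
      by_contra hcon
      push Not at hcon
      have e0 : a ^ 4 ≤ (249 / 100 : ℝ) ^ 4 := pow_le_pow_left₀ ha hb2 4
      have e1 : (167 / 100 : ℝ) ^ 4 < t ^ 4 := pow_lt_pow_left₀ hcon (by norm_num) (by norm_num)
      have e2 : 4 * t ^ 5 - 3 * t ^ 4 = t ^ 4 * (4 * t - 3) := by ring
      have e3 : (167 / 100 : ℝ) ^ 4 * (4 * (167 / 100) - 3) ≤ t ^ 4 * (4 * t - 3) :=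
        mul_le_mul e1.le (by linarith) (by norm_num) (by positivity)
      have e4 : (249 / 100 : ℝ) ^ 4 < 12 + (167 / 100 : ℝ) ^ 4 * (4 * (167 / 100) - 3) := by
        norm_num
      linarith
    have hT : t ^ 2 ≤ 28 / 10 := by
      have := pow_le_pow_left₀ ht ht3 2
      norm_num at this
      linarith
    have key : 554 / 1000 * b * (b + 2) < 2 * b ^ 2 := by nlinarith
    refine ⟨by linarith, by linarith, ?_, ?_⟩
    · exact lt_of_le_of_lt (mul_le_mul_of_nonneg_right hab (by linarith)) key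
    · refine real_mono96 ha hab hb hT (by linarith) ?_
      obtain ⟨s, hs, rfl⟩ : ∃ s : ℝ, 0 ≤ s ∧ b = 354 / 100 + s :=
        ⟨b - 354 / 100, by linarith, by ring⟩
      have s2 : 0 ≤ s ^ 2 := by positivity
      have s3 : 0 ≤ s ^ 3 := by positivity
      have s4 : 0 ≤ s ^ 4 := by positivity
      nlinarith

end Pool.Agent.PT51
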