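import Pool.Agent.PT42.Grow2

/-!
# PT51/StepsS75: in a closing chain the norms of neighbours differ by at most 2
-/

set_option autoImplicit false

namespace Pool.Agent.PT51.S75

open Pool.Agent.DFJ Pool.Agent.TBK Pool.Agent.PT42

theorem stepR {n : ℕ} {F : ℕ → ℂ} {m : ℕ → ℕ}
    (hS : ∀ j, 1 ≤ j → j ≤ n → Sy (m j) (F (j - 1)) (F j) (F (j + 1)))
    (hm : ∀ j, 1 ≤ j → j ≤ n → 1 ≤ m j) (hend : F (n + 1) = 0) {j : ℕ}
    (hj : j ≤ n) : ‖F (j + 1)‖ ≤ ‖F j‖ + 2 := by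
  by_contra hcon
  rw [not_le] at hcon
  obtain ⟨B, hB, hFB⟩ : ∃ B : ℝ, 2 < B ∧ ‖F j‖ + B ≤ ‖F (j + 1)‖ :=
    ⟨‖F (j + 1)‖ - ‖F j‖, by linarith, by linarith⟩
  have key : ∀ k, j ≤ k → k ≤ n → ‖F k‖ + B ≤ ‖F (k + 1)‖ := by
    intro k hk
    induction k, hk using Nat.le_induction with
    | base => intro _; exact hFB
    | succ k hk ih =>
      intro hkn
      have h1 := ih (by omega)
      have h2 := hS (k + 1) (by omega) hkn
      rw [show k + 1 - 1 = k by omega] at h2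
      exact h2.esc2 (hm (k + 1) (by omega) hkn) hB h1
  have h1 := key n hj le_rfl
  rw [hend, norm_zero] at h1
  have := norm_nonneg (F n)
  linarith

theorem steps {n : ℕ} {F : ℕ → ℂ} {m : ℕ → ℕ}
    (hS : ∀ j, 1 ≤ j → j ≤ n → Sy (m j) (F (j - 1)) (F j) (F (j + 1)))
    (hm : ∀ j, 1 ≤ j → j ≤ n → 1 ≤ m j) (h0 : F 0 = 0) (hend : F (n + 1) = 0) {j : ℕ}
    (hj : j ≤ n) : ‖F (j + 1)‖ ≤ ‖F j‖ + 2 ∧ ‖F j‖ ≤ ‖F (j + 1)‖ + 2 := by
  refine ⟨stepR hS hm hend hj, ?_⟩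
  have key := stepR (n := n) (F := fun j => F (n + 1 - j)) (m := fun j => m (n + 1 - j))
    (fun j h1 hj => by
      have h := (hS (n + 1 - j) (by omega) (by omega)).symm
      have e1 : n + 1 - j + 1 = n + 1 - (j - 1) := by omega
      have e2 : n + 1 - j - 1 = n + 1 - (j + 1) := by omega
      rw [e1, e2] at h
      exact h)
    (fun j h1 hj => hm _ (by omega) (by omega)) (by simpa using h0) (j := n - j) (by omega)
  have e1 : n + 1 - (n - j + 1) = j := by omega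
  have e2 : n + 1 - (n - j) = j + 1 := by omega
  simpa only [e1, e2] using key

end Pool.Agent.PT51.S75
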